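import Pool.Agent.K6.H80.CD.Top

/-!
Transcendence degrees and subfamilies.
-/

set_option autoImplicit false
set_option linter.unusedSectionVars false

namespace Pool.Agent.K6.H80.FC

/-- The transcendence degree over the field of some of the elements. -/
theorem trdeg_sub {F0 F Q : Type} [Field F0] [Field F] [Algebra F0 F] [Fintype Q] (r : Q → F)
    (Z : Set Q) {e : ℕ} (h : (Fintype.card Q : Cardinal) ≤
      Algebra.trdeg F0 (IntermediateField.adjoin F0 (Set.range r)) + e) :
    Cardinal.mk Z ≤ Algebra.trdeg (IntermediateField.adjoin F0 (r '' Zᶜ))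
      (IntermediateField.adjoin (IntermediateField.adjoin F0 (r '' Zᶜ))
        (Set.range fun q : Z => r q)) + e := by
  classical
  obtain ⟨R0, hR0⟩ : ∃ R0, R0 = IntermediateField.adjoin F0 (r '' Zᶜ) := ⟨_, rfl⟩
  rw [← hR0]
  obtain ⟨E, hE⟩ : ∃ E, E = IntermediateField.adjoin R0 (Set.range fun q : Z => r q) := ⟨_, rfl⟩
  rw [← hE]
  have h1 : E.restrictScalars F0 = IntermediateField.adjoin F0 (Set.range r) := by
    rw [hE]
    have h2 : (IntermediateField.adjoin R0 (Set.range fun q : Z => r q)).restrictScalars F0 =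
        IntermediateField.adjoin F0 (r '' Zᶜ ∪ Set.range fun q : Z => r q) := by
      subst hR0
      exact IntermediateField.adjoin_adjoin_left _ _ _
    rw [h2]
    congr 1
    ext z
    constructor
    · rintro (⟨q, -, rfl⟩ | ⟨q, rfl⟩)
      · exact ⟨q, rfl⟩
      · exact ⟨q, rfl⟩
    · rintro ⟨q, rfl⟩
      by_cases hq : q ∈ Z
      · exact Or.inr ⟨⟨q, hq⟩, rfl⟩
      · exact Or.inl ⟨q, hq, rfl⟩
  have h2 : Algebra.trdeg F0 (IntermediateField.adjoin F0 (Set.range r)) = Algebra.trdeg F0 E := by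
    rw [← h1]
    exact AlgEquiv.trdeg_eq
      { toFun := fun z => ⟨z.1, z.2⟩
        invFun := fun z => ⟨z.1, z.2⟩
        left_inv := fun _ => rfl
        right_inv := fun _ => rfl
        map_add' := fun _ _ => rfl
        map_mul' := fun _ _ => rfl
        commutes' := fun _ => rfl }
  have i1 : FaithfulSMul R0 E :=
    (faithfulSMul_iff_algebraMap_injective R0 E).2 (algebraMap R0 E).injective
  have i2 : FaithfulSMul F0 R0 :=
    (faithfulSMul_iff_algebraMap_injective F0 R0).2 (algebraMap F0 R0).injective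
  have h3 : Algebra.trdeg F0 R0 + Algebra.trdeg R0 E = Algebra.trdeg F0 E :=
    trdeg_add_eq F0 R0 (A := E)
  have h4 : Algebra.trdeg F0 R0 ≤ (Fintype.card (Zᶜ : Set Q) : Cardinal) := by
    obtain ⟨u, hu⟩ : ∃ u : (Zᶜ : Set Q) → R0, ∀ i, (u i : F) = r i := by
      refine ⟨fun i => ⟨r i, ?_⟩, fun _ => rfl⟩
      rw [hR0]
      exact IntermediateField.subset_adjoin _ _ ⟨i, i.2, rfl⟩
    have htop : IntermediateField.adjoin F0 (Set.range u) = ⊤ := by
      rw [eq_top_iff]
      rintro ⟨z, hz⟩ -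
      have h2 : R0 ≤ (IntermediateField.adjoin F0 (Set.range u)).map R0.val := by
        conv_lhs => rw [hR0]
        rw [IntermediateField.adjoin_le_iff]
        rintro _ ⟨i, hi, rfl⟩
        exact ⟨u ⟨i, hi⟩, IntermediateField.subset_adjoin _ _ ⟨_, rfl⟩, hu _⟩
      obtain ⟨w, hw, hwz⟩ := h2 hz
      have h4 : w = ⟨z, hz⟩ := Subtype.ext hwz
      rw [← h4]
      exact hw
    have halg : Algebra.IsAlgebraic (Algebra.adjoin F0 (Set.range u)) R0 := by
      refine ⟨fun f => IntermediateField.isAlgebraic_adjoin_iff.1 ?_⟩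
      have h5 : f ∈ IntermediateField.adjoin F0 (Set.range u) := by rw [htop]; trivial
      exact isAlgebraic_algebraMap (⟨f, h5⟩ : IntermediateField.adjoin F0 (Set.range u))
    have h7 := Algebra.IsAlgebraic.trdeg_le_cardinalMk (R := F0) (Set.range u)
    refine h7.trans ?_
    rw [← Cardinal.mk_fintype]
    exact Cardinal.mk_range_le
  rw [h2, ← h3] at h
  have h5 : (Fintype.card Q : Cardinal) = Cardinal.mk Z + Fintype.card (Zᶜ : Set Q) := by
    rw [Cardinal.mk_fintype]
    have h6 := Fintype.card_congr (Equiv.Set.sumCompl Z)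
    rw [Fintype.card_sum] at h6
    rw [← h6]
    push_cast
    rfl
  have h6 : (Fintype.card (Zᶜ : Set Q) : Cardinal) < Cardinal.aleph0 := Cardinal.natCast_lt_aleph0
  rw [h5] at h
  have h7 : Cardinal.mk Z + (Fintype.card (Zᶜ : Set Q) : Cardinal) ≤
      (Algebra.trdeg R0 E + e) + Fintype.card (Zᶜ : Set Q) := by
    calc Cardinal.mk Z + (Fintype.card (Zᶜ : Set Q) : Cardinal)
        ≤ Algebra.trdeg F0 R0 + Algebra.trdeg R0 E + e := h
      _ ≤ Fintype.card (Zᶜ : Set Q) + Algebra.trdeg R0 E + e := by gcongr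
      _ = (Algebra.trdeg R0 E + e) + Fintype.card (Zᶜ : Set Q) := by
        rw [add_assoc, add_comm]
  exact (Cardinal.add_le_add_iff_of_lt_aleph0 h6).1 h7

/-- A subfamily that is free over the field of some of the elements. -/
theorem exists_free_sub {F0 F Q : Type} [Field F0] [Field F] [Algebra F0 F] [Fintype Q]
    (r : Q → F) (Z : Set Q) {e : ℕ} (h : Cardinal.mk Q ≤
      Algebra.trdeg F0 (IntermediateField.adjoin F0 (Set.range r)) + e) :
    ∃ W : Set Q, W ⊆ Z ∧ (Z \ W).ncard ≤ e ∧
      AlgebraicIndependent (IntermediateField.adjoin F0 (r '' Zᶜ)) (fun p : W => r p) := by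
  classical
  rw [Cardinal.mk_fintype] at h
  have h1 := trdeg_sub r Z h
  rw [Cardinal.mk_fintype] at h1
  obtain ⟨B, hB, hBc⟩ := Pool.Agent.K6.H80.CD.exists_free (fun q : Z => r q) h1
  refine ⟨Subtype.val '' (B : Set Z), ?_, ?_, ?_⟩
  · rintro _ ⟨q, -, rfl⟩
    exact q.2
  · have h2 : Z \ (Subtype.val '' (B : Set Z)) = Subtype.val '' ((Bᶜ : Finset Z) : Set Z) := by
      ext q
      constructor
      · rintro ⟨hq, hq'⟩
        refine ⟨⟨q, hq⟩, ?_, rfl⟩
        rw [Finset.mem_coe, Finset.mem_compl]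
        exact fun h => hq' ⟨_, h, rfl⟩
      · rintro ⟨q, hq, rfl⟩
        refine ⟨q.2, ?_⟩
        rintro ⟨q', hq', h⟩
        rw [Finset.mem_coe, Finset.mem_compl] at hq
        apply hq
        rw [← Subtype.ext h]
        exact hq'
    rw [h2, Set.ncard_image_of_injective _ Subtype.val_injective, Set.ncard_coe_finset]
    exact hBc
  · have h3 : ∀ p : (Subtype.val '' (B : Set Z) : Set Q), ∃ q : B, q.1.1 = p.1 := by
      rintro ⟨_, q, hq, rfl⟩
      exact ⟨⟨q, hq⟩, rfl⟩
    choose g hg using h3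
    have hgi : Function.Injective g := by
      intro p q hpq
      apply Subtype.ext
      rw [← hg p, ← hg q, hpq]
    have h4 := hB.comp g hgi
    have h5 : (fun p : (Subtype.val '' (B : Set Z) : Set Q) => r p) =
        (fun p : B => r p) ∘ g := by
      funext p
      rw [Function.comp_apply, hg]
    rw [h5]
    exact h4

end Pool.Agent.K6.H80.FC
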