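import Pool.Agent.K6.H80.FC.Main
import Pool.Agent.K6.H80.FC.Trd

/-!
Extension of the base field, and the height inequality for members of linear systems whose
coefficients generate a field of large transcendence degree.
-/

set_option autoImplicit false
set_option linter.unusedSectionVars false

open MvPolynomial FF Pool.Agent.W603.LV Pool.Agent.W603.PV Pool.Agent.W603.CZ
open Pool.Agent.K6.H80.LV (Ti OK St sM pw up up_le mn mn_pw mn_step pw_mem det_blk sM_up_mem po
  po_le exists_po exists_sc sc Tan exists_coords der_adjoin bp px px_apply bht po_finite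
  hgt_le_bht chain der_coeff DimB Sys finite_st aeval_mn eval_comb Two st_two)
open Pool.Agent.K6.H80.FV (sht Meet IsMulti fg_adjoin Mt)

namespace Pool.Agent.K6.H80.FC

/-- The monomials over a larger field, with the members of the linear system in two parts. -/
theorem Sys.split {k1 k2 σ S J : Type} [Field k1] [Field k2] [Algebra k1 k2] [Fintype σ]
    [Fintype J] {β : σ → S} {V : Set (MvPolynomial σ k1)} {P : J → MvPolynomial σ k1}
    {I : σ →₀ ℕ} (h : Sys β V P I) (p : J → Prop) [Fintype {j // p j}] [Fintype {j // ¬ p j}] :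
    Sys β (map (algebraMap k1 k2) '' V)
      (Sum.elim (fun j : {j // p j} => map (algebraMap k1 k2) (P j))
        fun j : {j // ¬ p j} => map (algebraMap k1 k2) (P j)) I := by
  classical
  obtain ⟨e, he⟩ := h
  refine ⟨Sum.elim (fun j => algebraMap k1 k2 (e j)) fun j => algebraMap k1 k2 (e j),
    fun Ω _ _ x hx hxV => ?_⟩
  let _ : Algebra k1 Ω := ((algebraMap k2 Ω).comp (algebraMap k1 k2)).toAlgebra
  have hst : IsScalarTower k1 k2 Ω := IsScalarTower.of_algebraMap_eq fun _ => rfl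
  have h1 := he Ω x hx fun f hf => by
    have h3 := hxV _ ⟨f, hf, rfl⟩
    rwa [aeval_map_algebraMap] at h3
  have h2 : aeval x (monomial I (1 : k2)) = aeval x (monomial I (1 : k1)) := by
    rw [aeval_mn, aeval_mn]
  rw [h2, h1, Fintype.sum_sum_type]
  simp only [Sum.elim_inl, Sum.elim_inr, aeval_map_algebraMap, ← IsScalarTower.algebraMap_apply]
  rw [← Fintype.sum_subtype_add_sum_subtype p]
  congr 1
  · exact Finset.sum_congr (Finset.ext fun _ => by simp) fun _ _ => rfl
  · exact Finset.sum_congr (Finset.ext fun _ => by simp) fun _ _ => rfl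

section

variable {k0 k F0 F : Type} [Field k0] [Field k] [Field F0] [Field F] [IsAlgClosed k]
    [CharZero k] [Algebra k0 k] [Algebra k F] [Algebra k0 F] [IsScalarTower k0 k F]
    [Algebra k0 F0] [Algebra F0 F] [IsScalarTower k0 F0 F] [IsFF k F]
    {σ S A : Type} [Fintype σ] [Fintype S] [Fintype A] {β : σ → S} {dg : A → S → ℕ}
    {m : ℕ} {μ : S → ℕ}

/-- The conclusion. -/
def Concl (k : Type) {F0 F L σ S A : Type} [Field k] [Field F0] [Field F] [Field L] [Algebra k L]
    [Algebra F0 L] [Algebra F L] [Fintype σ] [Fintype S] (β : σ → S) (dg : A → S → ℕ)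
    (Fm : A → MvPolynomial σ F) (V : Set (MvPolynomial σ F0)) (m : ℕ) (μ : S → ℕ) (d : ℕ)
    (B T : Finset A) (C : ℕ) (x : σ → L) : Prop :=
  ∃ (r : ℕ) (u : Fin (r + Fintype.card S) → σ → L) (w : S → ℕ), r ≤ m ∧
    LinearIndependent L u ∧ (∀ s, px β x s ∈ Submodule.span L (Set.range u)) ∧
    (∀ i, ∀ f ∈ V, ∑ l, aeval x (pderiv l f) * u i l = 0) ∧
    ∑ s, w s + B.card ≤ r + d ∧
    ∑ s, ((∑ a ∈ B, dg a s : ℕ) + (∑ a ∈ T, dg a s : ℕ) - w s : ℤ) * bht k β x s +
      sht k β x u ≤ (Mt k β dg Fm T x).ncard + canDeg k L + C * Module.finrank F L ∧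
    ∑ s, ((∑ a ∈ B, dg a s : ℕ) + (∑ a ∈ T, dg a s : ℕ) - w s - μ s - 1 : ℤ) * bht k β x s ≤
      (Mt k β dg Fm T x).ncard + canDeg k L + C * Module.finrank F L

/-- The inequality for given sets of indices, in a chart. -/
theorem chart (hfg : ∃ S : Finset F0, IntermediateField.adjoin k0 (S : Set F0) = ⊤)
    {c : S → σ} (hc : ∀ s, β (c s) = s)
    (V : Set (MvPolynomial σ F0)) (hVm : ∀ f ∈ V, ∃ e, IsMulti β e f) (hV : DimB F0 β V m μ)
    (G0 : A → MvPolynomial σ F0) (hG0 : ∀ a, IsMulti β (dg a) (G0 a))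
    {J : A → Type} [∀ a, Fintype (J a)] (P : ∀ a, J a → MvPolynomial σ F0)
    (hPm : ∀ a j, IsMulti β (dg a) (P a j))
    (hP : ∀ a, ∀ I ∈ St β c (dg a), Sys β V (P a) I)
    (cf : ∀ a, J a → F) {d : ℕ} (htr : Cardinal.mk (Σ a, J a) ≤ Algebra.trdeg F0
      (IntermediateField.adjoin F0 (Set.range fun p : (Σ a, J a) => cf p.1 p.2)) + d)
    {Fm : A → MvPolynomial σ F}
    (hF : ∀ a, Fm a = map (algebraMap F0 F) (G0 a) +
      ∑ j, C (cf a j) * map (algebraMap F0 F) (P a j)) (B T : Finset A) (hBT : Disjoint B T) :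
    ∃ C : ℕ, ∀ (L : Type) [Field L] [Algebra k L] [Algebra F L] [Algebra F0 L]
      [IsScalarTower k F L] [IsScalarTower F0 F L] [FiniteDimensional F L] (x : σ → L),
      (∀ s, x (c s) = 1) → (∀ f ∈ V, aeval x f = 0) → (∀ t ∈ T, aeval x (Fm t) ≠ 0) →
      (∀ b ∈ B, IsAlgebraic (IntermediateField.adjoin F0
        (Set.range x ∪ (fun a => aeval x (Fm a)) '' {a | a ∉ B})) (aeval x (Fm b))) →
      Concl k β dg Fm V m μ d B T C x := by
  classical
  obtain ⟨U, hU⟩ : ∃ U : Set F, U = (fun p : (Σ a, J a) => cf p.1 p.2) '' {p | p.1 ∈ B ∪ T}ᶜ :=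
    ⟨_, rfl⟩
  have hUf : U.Finite := by rw [hU]; exact (Set.toFinite _).image _
  have hfg' := fg_adjoin (k0 := k0) hfg hUf
  have hst0 : IsScalarTower k0 (IntermediateField.adjoin F0 U) F :=
    IsScalarTower.of_algebraMap_eq fun _ => rfl
  obtain ⟨W, hWZ, hWc, hind⟩ := exists_free_sub (fun p : (Σ a, J a) => cf p.1 p.2)
    {p | p.1 ∈ B ∪ T} htr
  rw [← hU] at hind
  obtain ⟨p, hp⟩ : ∃ p : ∀ a, J a → Prop, ∀ a j, p a j ↔ (⟨a, j⟩ : Σ a, J a) ∈ W :=
    ⟨_, fun _ _ => Iff.rfl⟩
  have hind' : AlgebraicIndependent (IntermediateField.adjoin F0 U)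
      fun q : (Σ a : {a // a ∈ B ∪ T}, {j : J a // p a j}) => cf q.1 q.2 :=
    hind.comp (fun q : (Σ a : {a // a ∈ B ∪ T}, {j : J a // p a j}) =>
      (⟨⟨q.1.1, q.2.1⟩, (hp _ _).1 q.2.2⟩ : W)) (by
        rintro ⟨⟨a, ha⟩, j, hj⟩ ⟨⟨a', ha'⟩, j', hj'⟩ h
        have h6 := congrArg Subtype.val h
        obtain rfl : a = a' := congrArg Sigma.fst h6
        obtain rfl : j = j' := eq_of_heq (Sigma.mk.inj_iff.1 h6).2
        rfl)
  have hcard' : Fintype.card (Σ a : {a // a ∈ B ∪ T}, {j : J a // ¬ p a j}) ≤ d := by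
    refine le_trans ?_ hWc
    rw [← Nat.card_coe_set_eq, Nat.card_eq_fintype_card]
    refine Fintype.card_le_of_injective (fun q : (Σ a : {a // a ∈ B ∪ T}, {j : J a // ¬ p a j}) =>
      (⟨⟨q.1.1, q.2.1⟩, q.1.2, fun h => q.2.2 ((hp _ _).2 h)⟩ :
        ({p : (Σ a, J a) | p.1 ∈ B ∪ T} \ W : Set (Σ a, J a)))) ?_
    rintro ⟨⟨a, ha⟩, j, hj⟩ ⟨⟨a', ha'⟩, j', hj'⟩ h
    have h6 := congrArg Subtype.val h
    obtain rfl : a = a' := congrArg Sigma.fst h6
    obtain rfl : j = j' := eq_of_heq (Sigma.mk.inj_iff.1 h6).2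
    rfl
  have hcfU : ∀ a, a ∉ B ∪ T → ∀ j, cf a j ∈ IntermediateField.adjoin F0 U := by
    intro a ha j
    refine IntermediateField.subset_adjoin _ _ ?_
    rw [hU]
    exact ⟨⟨a, j⟩, ha, rfl⟩
  obtain ⟨C0, hC0⟩ := main2 (k0 := k0) (k := k) (R0 := IntermediateField.adjoin F0 U) (F := F)
    hfg' (A := {a // a ∈ B ∪ T}) (T := {a // a ∈ T}) (β := β) (c := c) (dg := fun a => dg a)
    hc (m := m) (μ := μ) (map (algebraMap F0 (IntermediateField.adjoin F0 U)) '' V)
    (by
      rintro _ ⟨f, hf, rfl⟩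
      obtain ⟨e, he⟩ := hVm f hf
      exact ⟨e, he.map _⟩) hV.base
    (fun a => map (algebraMap F0 (IntermediateField.adjoin F0 U)) (G0 a))
    (fun a => (hG0 a).map _) (J := fun a => {j : J a // p a j}) (Q := fun a => {j : J a // ¬ p a j})
    (fun a j => map (algebraMap F0 (IntermediateField.adjoin F0 U)) (P a j))
    (fun a j => (hPm a j).map _)
    (fun a j => map (algebraMap F0 (IntermediateField.adjoin F0 U)) (P a j))
    (fun a j => (hPm a j).map _)
    (fun a I hI => Sys.split (hP a I hI) (p a)) (fun a j => cf a j) hind' (fun a j => cf a j)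
    (Fm := fun a => Fm a) (fun a => by
      rw [hF, map_map, ← IsScalarTower.algebraMap_eq, add_assoc]
      congr 1
      simp only [map_map, ← IsScalarTower.algebraMap_eq]
      exact (Fintype.sum_subtype_add_sum_subtype (p a)
        fun j => C (cf a j) * map (algebraMap F0 F) (P a j)).symm)
    (fun t => ⟨t.1, Finset.mem_union_right _ t.2⟩)
  refine ⟨C0, ?_⟩
  intro L _ _ _ _ _ _ _ x hx hxV hxT hxB
  obtain ⟨R0, hR0⟩ : ∃ R0, R0 = IntermediateField.adjoin F0 U := ⟨_, rfl⟩
  have hst1 : IsScalarTower (IntermediateField.adjoin F0 U) F L := inferInstance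
  have hst2 : IsScalarTower F0 (IntermediateField.adjoin F0 U) L :=
    IsScalarTower.of_algebraMap_eq fun r => by
      rw [IsScalarTower.algebraMap_apply F0 F L]
      rfl
  have hval : ∀ a, a ∉ B ∪ T → aeval x (Fm a) ∈
      IntermediateField.adjoin (IntermediateField.adjoin F0 U) (Set.range x) := by
    intro a ha
    have h1 : ∀ f : MvPolynomial σ F0, aeval x (map (algebraMap F0 F) f) ∈
        IntermediateField.adjoin (IntermediateField.adjoin F0 U) (Set.range x) := by
      intro f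
      have h2 : aeval x (map (algebraMap F0 F) f) =
          aeval x (map (algebraMap F0 (IntermediateField.adjoin F0 U)) f) := by
        rw [aeval_map_algebraMap, aeval_map_algebraMap]
      rw [h2]
      have h3 : aeval x (map (algebraMap F0 (IntermediateField.adjoin F0 U)) f) ∈
          Algebra.adjoin (IntermediateField.adjoin F0 U) (Set.range x) := by
        rw [Algebra.adjoin_range_eq_range_aeval]
        exact ⟨_, rfl⟩
      exact IntermediateField.algebra_adjoin_le_adjoin _ _ h3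
    rw [hF, map_add, map_sum]
    refine add_mem (h1 _) (sum_mem fun j _ => ?_)
    rw [map_mul, aeval_C]
    refine mul_mem ?_ (h1 _)
    exact IntermediateField.algebraMap_mem _ (⟨cf a j, hcfU a ha j⟩ : IntermediateField.adjoin F0 U)
  obtain ⟨r, u, w, hr, hu, hpx, htan, hw, h1, h2⟩ := hC0 L x hx (by
      rintro _ ⟨f, hf, rfl⟩
      rw [aeval_map_algebraMap]
      exact hxV f hf) (fun t => hxT t t.2) (by
      rintro ⟨a, ha⟩
      rcases Finset.mem_union.1 ha with hb | ht
      · refine Pool.Agent.TH145.MF.alg_mono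
          (F1 := (IntermediateField.adjoin F0
            (Set.range x ∪ (fun a => aeval x (Fm a)) '' {a | a ∉ B})).toSubfield)
          (F2 := (IntermediateField.adjoin (IntermediateField.adjoin F0 U)
            (Set.range x ∪ Set.range fun t : {t // t ∈ T} => aeval x (Fm t))).toSubfield) ?_
          (hxB a hb)
        rw [IntermediateField.adjoin_toSubfield, Subfield.closure_le]
        rintro z (⟨r, rfl⟩ | (hz | ⟨a', ha', rfl⟩))
        · rw [IsScalarTower.algebraMap_apply F0 (IntermediateField.adjoin F0 U) L]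
          exact IntermediateField.algebraMap_mem _ _
        · exact IntermediateField.subset_adjoin _ _ (Or.inl hz)
        · by_cases hT : a' ∈ T
          · exact IntermediateField.subset_adjoin _ _ (Or.inr ⟨⟨a', hT⟩, rfl⟩)
          · have h3 := hval a' fun h => by
              rcases Finset.mem_union.1 h with h | h
              · exact ha' h
              · exact hT h
            exact IntermediateField.adjoin.mono _ _ _ Set.subset_union_left h3
      · exact isAlgebraic_algebraMap (⟨_, IntermediateField.subset_adjoin _ _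
          (Or.inr ⟨⟨a, ht⟩, rfl⟩)⟩ : IntermediateField.adjoin (IntermediateField.adjoin F0 U)
            (Set.range x ∪ Set.range fun t : {t // t ∈ T} => aeval x (Fm t))))
  have hMeet : Meet k (A := {a // a ∈ B ∪ T}) β (fun a => dg a) (fun a => Fm a)
      (fun t : {a // a ∈ T} => ⟨t.1, Finset.mem_union_right _ t.2⟩) x = Mt k β dg Fm T x := by
    ext P
    constructor
    · rintro ⟨t, ht⟩
      exact ⟨t.1, t.2, ht⟩
    · rintro ⟨t, htT, ht⟩
      exact ⟨⟨t, htT⟩, ht⟩
  have hcard : Fintype.card {a // a ∈ B ∪ T} = B.card + T.card := by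
    rw [Fintype.card_coe, Finset.card_union_of_disjoint hBT]
  have hsum : ∀ s, ∑ a : {a // a ∈ B ∪ T}, dg a s = ∑ a ∈ B, dg a s + ∑ a ∈ T, dg a s := by
    intro s
    rw [Finset.sum_coe_sort (B ∪ T) (fun a => dg a s), Finset.sum_union hBT]
  rw [hMeet] at h1 h2
  simp only [hsum] at h1 h2
  push_cast at h1 h2
  rw [hcard, Fintype.card_coe] at hw
  refine ⟨r, u, w, hr, hu, hpx, fun i f hf => ?_, by omega, ?_, ?_⟩
  · have h3 := htan i _ ⟨f, hf, rfl⟩
    rw [← h3]
    refine Finset.sum_congr rfl fun l _ => ?_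
    rw [pderiv_map, aeval_map_algebraMap]
  · push_cast
    exact h1
  · push_cast
    exact h2

theorem Concl.mono {d : ℕ} {L : Type} [Field L] [Algebra k L] [Algebra F0 L] [Algebra F L]
    {Fm : A → MvPolynomial σ F} {V : Set (MvPolynomial σ F0)} {B T : Finset A} {C C' : ℕ}
    {x : σ → L} (h : Concl k β dg Fm V m μ d B T C x) (hC : C ≤ C') :
    Concl k β dg Fm V m μ d B T C' x := by
  obtain ⟨r, u, w, hr, hu, hpx, htan, hw, h1, h2⟩ := h
  have h3 : (C : ℤ) * Module.finrank F L ≤ C' * Module.finrank F L :=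
    mul_le_mul_of_nonneg_right (by exact_mod_cast hC) (by positivity)
  exact ⟨r, u, w, hr, hu, hpx, htan, hw, by linarith, by linarith⟩

/-- The inequality. -/
theorem final (hfg : ∃ S : Finset F0, IntermediateField.adjoin k0 (S : Set F0) = ⊤)
    (V : Set (MvPolynomial σ F0)) (hVm : ∀ f ∈ V, ∃ e, IsMulti β e f) (hV : DimB F0 β V m μ)
    (G0 : A → MvPolynomial σ F0) (hG0 : ∀ a, IsMulti β (dg a) (G0 a))
    {J : A → Type} [∀ a, Fintype (J a)] (P : ∀ a, J a → MvPolynomial σ F0)
    (hPm : ∀ a j, IsMulti β (dg a) (P a j))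
    (hP : ∀ a I, Two β (dg a) I → Sys β V (P a) I)
    (cf : ∀ a, J a → F) {d : ℕ} (htr : Cardinal.mk (Σ a, J a) ≤ Algebra.trdeg F0
      (IntermediateField.adjoin F0 (Set.range fun p : (Σ a, J a) => cf p.1 p.2)) + d)
    {Fm : A → MvPolynomial σ F}
    (hF : ∀ a, Fm a = map (algebraMap F0 F) (G0 a) +
      ∑ j, C (cf a j) * map (algebraMap F0 F) (P a j)) :
    ∃ C : ℕ, ∀ (L : Type) [Field L] [Algebra k L] [Algebra F L] [Algebra F0 L]
      [IsScalarTower k F L] [IsScalarTower F0 F L] [FiniteDimensional F L] (x : σ → L),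
      (∀ s, ∃ l, β l = s ∧ x l = 1) → (∀ f ∈ V, aeval x f = 0) →
      ∀ (B T : Finset A), Disjoint B T → (∀ t ∈ T, aeval x (Fm t) ≠ 0) →
      (∀ b ∈ B, IsAlgebraic (IntermediateField.adjoin F0
        (Set.range x ∪ (fun a => aeval x (Fm a)) '' {a | a ∉ B})) (aeval x (Fm b))) →
      Concl k β dg Fm V m μ d B T C x := by
  classical
  have key : ∀ (c : S → σ) (B T : Finset A), ∃ C : ℕ, (∀ s, β (c s) = s) → Disjoint B T →
      ∀ (L : Type) [Field L] [Algebra k L] [Algebra F L] [Algebra F0 L]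
      [IsScalarTower k F L] [IsScalarTower F0 F L] [FiniteDimensional F L] (x : σ → L),
      (∀ s, x (c s) = 1) → (∀ f ∈ V, aeval x f = 0) → (∀ t ∈ T, aeval x (Fm t) ≠ 0) →
      (∀ b ∈ B, IsAlgebraic (IntermediateField.adjoin F0
        (Set.range x ∪ (fun a => aeval x (Fm a)) '' {a | a ∉ B})) (aeval x (Fm b))) →
      Concl k β dg Fm V m μ d B T C x := by
    intro c B T
    by_cases h : (∀ s, β (c s) = s) ∧ Disjoint B T
    · obtain ⟨C, hC⟩ := chart (k := k) hfg h.1 V hVm hV G0 hG0 P hPm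
        (fun a I hI => hP a I (st_two h.1 hI)) cf htr hF B T h.2
      exact ⟨C, fun _ _ => hC⟩
    · exact ⟨0, fun h1 h2 => absurd ⟨h1, h2⟩ h⟩
  choose C hC using key
  refine ⟨∑ c, ∑ B, ∑ T, C c B T, ?_⟩
  intro L _ _ _ _ _ _ _ x hx hxV B T hBT hxT hxB
  choose c hc using hx
  refine (hC c B T (fun s => (hc s).1) hBT L x (fun s => (hc s).2) hxV hxT hxB).mono ?_
  refine le_trans ?_ (Finset.single_le_sum (f := fun c => ∑ B, ∑ T, C c B T)
    (fun _ _ => Nat.zero_le _) (Finset.mem_univ c))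
  refine le_trans ?_ (Finset.single_le_sum (f := fun B => ∑ T, C c B T)
    (fun _ _ => Nat.zero_le _) (Finset.mem_univ B))
  exact Finset.single_le_sum (f := fun T => C c B T) (fun _ _ => Nat.zero_le _)
    (Finset.mem_univ T)

end

end Pool.Agent.K6.H80.FC
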