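import Pool.Agent.K6.H80.FC.Local

/-!
The ranks, and the height inequality, with corrections in the coordinates of weight zero.
-/

set_option autoImplicit false
set_option linter.unusedSectionVars false

open MvPolynomial FF Pool.Agent.W603.LV Pool.Agent.W603.PV
open Pool.Agent.TH812.GV2 (Loc)
open Pool.Agent.TH145.GC (exists_minor)
open Pool.Agent.K6.H80.LV (Ti OK St sM pw up up_le mn mn_pw mn_step pw_mem det_blk sM_up_mem po
  po_le exists_po exists_sc sc Tan exists_coords der_adjoin bp px px_apply bht po_finite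
  hgt_le_bht)
open Pool.Agent.K6.H80.FV (gw gx gx_inl sum_gx_inl Rx gsc prod_gw_inl gsc_inl fac der_gsc ex ft col
  tw fac_eq ord_prod_pow ord_factors gw_split det_rank1 pr tan_le tan_blk_le minors_eq exists_split
  lo sht lo_le exists_lo lo_finite sum_places2 num2)

namespace Pool.Agent.K6.H80.FC

section tan

variable {k0 L : Type} [Field k0] [Field L] [Algebra k0 L] {σ S A T : Type} [Fintype σ]
  [Fintype S] [Fintype T] {β : σ → S} {wT : T → S → ℕ} {c : S → σ} {dg : A → S → ℕ}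
  {D : A → (σ →₀ ℕ) → Derivation ℤ L L} {ζ : A → (σ →₀ ℕ) → σ ⊕ T → L}

theorem full_le_tan (hζ : Wt0 β wT ζ) (hDk : ∀ a I (r : k0), D a I (algebraMap k0 L r) = 0) (y : σ ⊕ T → L) :
    (Full β wT c dg D ζ y).map (pr L σ T) ≤ Tan k0 β (y ∘ Sum.inl) := by
  classical
  have hE : ∀ a I, pr L σ T (Ev D ζ y a I) ∈ Tan k0 β (y ∘ Sum.inl) := fun a I =>
    ⟨0, D a I, hDk a I, fun l => by
      rw [Pi.zero_apply, zero_mul, zero_add]
      change D a I (y (Sum.inl l)) + ζ a I (Sum.inl l) = _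
      rw [hζ.inl a I l, add_zero]
      rfl⟩
  rw [Submodule.map_le_iff_le_comap, Full, Submodule.span_le]
  rintro _ (⟨o, rfl⟩ | ⟨a, I, hI, rfl⟩)
  · rcases o with s | t
    · refine ⟨fun s' => if s' = s then 1 else 0, 0, fun _ => rfl, fun l => ?_⟩
      change gx β wT y s (Sum.inl l) = _
      rw [gx_inl]
      simp only [Derivation.zero_apply, add_zero, ite_mul, one_mul, zero_mul,
        Function.comp_apply]
    · change pr L σ T (wv β wT c dg D ζ y (Sum.inr t)) ∈ Tan k0 β (y ∘ Sum.inl)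
      simp only [wv, tv]
      split_ifs
      · rw [map_sub, map_smul, map_smul]
        exact sub_mem (Submodule.smul_mem _ _ (hE _ _)) (Submodule.smul_mem _ _ (hE _ _))
      · rw [map_zero]
        exact zero_mem _
  · exact hE a I

/-- The projection to a block of the main coordinates. -/
theorem rank_le_blk [CharZero L] (hc : ∀ s, β (c s) = s) (hζ : Wt0 β wT ζ)
    (hDk : ∀ a I (r : k0), D a I (algebraMap k0 L r) = 0) {y : σ ⊕ T → L}
    (hx : ∀ s, y (Sum.inl (c s)) = 1) {m : ℕ} (s : S)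
    (h : Algebra.trdeg k0 (IntermediateField.adjoin k0 ((y ∘ Sum.inl) '' {l | β l = s})) ≤ m) :
    Module.finrank L (((Full β wT c dg D ζ y).map (pr L σ T)).map (bp L β s)) ≤ m + 1 :=
  (Submodule.finrank_mono (Submodule.map_mono (full_le_tan hζ hDk y))).trans
    (tan_blk_le (k0 := k0) hc (x := y ∘ Sum.inl) hx s h)

end tan

section glob

variable {k K : Type} [Field k] [Field K] [Algebra k K] {σ S A T : Type} [Fintype σ] [Fintype S]
  [Fintype T] [IsAlgClosed k] [CharZero k] [IsFF k K]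
  {β : σ → S} {wT : T → S → ℕ} {c : S → σ} {dg : A → S → ℕ}
  {D : A → (σ →₀ ℕ) → Derivation ℤ K K} {ζ : A → (σ →₀ ℕ) → σ ⊕ T → K}

open scoped Classical in
/-- The height inequality, with the height of the space of the vector fields. -/
theorem ineq2 [Fintype A] (hc : ∀ s, β (c s) = s) (hζ : Wt0 β wT ζ) {y : σ ⊕ T → K}
    (hx : ∀ s, y (Sum.inl (c s)) = 1) (hz : ∀ t, y (Sum.inr t) ≠ 0)
    {φ : A → σ ⊕ T → K} (hφ : Fn β wT c dg D ζ y φ)
    {q e : Place k K → ℤ} (hq0 : ∀ P, 0 ≤ q P) (he0 : ∀ P, 0 ≤ e P)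
    (hqf : {P | q P ≠ 0}.Finite) (hef : {P | e P ≠ 0}.Finite)
    (hdir : ∀ P : Place k K, ∀ a, ∀ I ∈ St β c (dg a), Ge P (-e P) (D a I (unif P)))
    (hloss : ∀ (P : Place k K) δ, Loc P δ → ∀ a, ∀ I ∈ St β c (dg a), ∀ g f, Ge P g f →
      Ge P (g - q P) (D a I f - D a I (unif P) * δ f))
    (hζo : ∀ (P : Place k K) a, ∀ I ∈ St β c (dg a), ∀ γ,
      Ge P (P.ord (ex y γ) - q P) (ζ a I γ)) :
    ∃ (ρ : ℕ) (u : Fin ρ → σ → K) (w : S → ℕ), LinearIndependent K u ∧
      Submodule.span K (Set.range u) = (Full β wT c dg D ζ y).map (pr K σ T) ∧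
      ∑ s, w s + Fintype.card A + Fintype.card S ≤ ρ + Fintype.card T ∧
      ∑ s, ((∑ a, dg a s : ℕ) - w s : ℤ) * bht k β (y ∘ Sum.inl) s +
        sht k β (y ∘ Sum.inl) u ≤
      ∑ᶠ P : Place k K, ((if ∃ t, P.ord (y (Sum.inr t)) ≠
        ∑ s, (wT t s : ℤ) * po β P (y ∘ Sum.inl) s then 1 else 0) +
          (e P + (ρ + Fintype.card T : ℕ) * q P)) := by
  have hx0 : ∀ s, y (Sum.inl (c s)) ≠ 0 := fun s => by rw [hx]; exact one_ne_zero
  have hs0 : LinearIndepOn K (vv β wT c dg D ζ y fun a => pw c (dg a))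
      (Set.range fun s : S => (Sum.inl (Sum.inl s) : Rx σ S A ⊕ A)) := by
    rw [← Set.image_univ]
    refine LinearIndepOn.image_of_comp _ _ ?_
    rw [linearIndepOn_univ_iff, Fintype.linearIndependent_iff]
    intro r hr s
    have h2 := congrFun hr (Sum.inl (c s))
    simp only [Finset.sum_apply, Function.comp_apply, vv, wv, Pi.smul_apply, smul_eq_mul,
      Pi.zero_apply] at h2
    rw [sum_gx_inl, hc, hx, mul_one] at h2
    exact h2
  obtain ⟨b, hbV, hb, hbi, hspan, hcard⟩ := exists_rows hc hx0 hφ hs0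
  obtain ⟨ρ, t, u, w, θ, hu, huW, hWw, hR, htT, -, g, hg, hgτ⟩ :=
    exists_split (Full β wT c dg D ζ y)
  have hbc : b.card = ρ + t := by rw [← hcard]; exact hR
  have eb : Nonempty (b ≃ Fin ρ ⊕ Fin t) := by
    rw [← Fintype.card_eq, Fintype.card_coe, Fintype.card_sum, Fintype.card_fin,
      Fintype.card_fin, hbc]
  obtain ⟨eb⟩ := eb
  obtain ⟨g', hg', hgg⟩ := minors_eq hbi (fun i => hWw (vv_mem_full y
    (fun a => pw_mem hc _) i.1)) eb
  -- the determinants
  obtain ⟨τb, hτb⟩ : ∃ τb : (Fin ρ → σ) → b → σ ⊕ T, ∀ τ j, τb τ j =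
    Sum.elim (fun a => Sum.inl (τ a)) (fun a => Sum.inr (θ a)) (eb j) := ⟨_, fun _ _ => rfl⟩
  have hmx : ∀ τ : Fin ρ → σ, (mx β wT c dg D ζ y (fun a => pw c (dg a)) b (τb τ)).det =
      (Matrix.of fun i j => u i (τ j)).det * (g' * g) := by
    intro τ
    have h1 := hgg (Sum.elim (fun a => Sum.inl (τ a)) (fun a => Sum.inr (θ a)))
    rw [hgτ] at h1
    have h2 : (mx β wT c dg D ζ y (fun a => pw c (dg a)) b (τb τ)) = Matrix.of fun i j : b =>
        vv β wT c dg D ζ y (fun a => pw c (dg a)) i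
          (Sum.elim (fun a => Sum.inl (τ a)) (fun a => Sum.inr (θ a)) (eb j)) := by
      ext i j
      rw [mx, Matrix.of_apply, Matrix.of_apply, hτb]
    rw [h2, h1]
    ring
  have hex : ∀ τ : Fin ρ → σ, ∏ j : b, ex y (τb τ j) = ∏ a, y (Sum.inr (θ a)) := by
    intro τ
    simp only [hτb]
    rw [Equiv.prod_comp eb (fun j => ex y (Sum.elim (fun a => Sum.inl (τ a))
      (fun a => Sum.inr (θ a)) j)), Fintype.prod_sum_type]
    simp [ex]
  have hcol : ∀ (τ : Fin ρ → σ) (v : S → ℤ), ∑ s, (col β (τb τ) s : ℤ) * v s =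
      ∑ j, v (β (τ j)) := by
    intro τ v
    have h1 : ∀ s, (col β (τb τ) s : ℤ) = ∑ j, if β (τ j) = s then 1 else 0 := by
      intro s
      unfold col
      simp only [hτb]
      rw [Equiv.sum_comp eb (fun j => gw β (fun (_ : T) _ => 0) (Sum.elim (fun a => Sum.inl (τ a))
        (fun a => Sum.inr (θ a)) j) s), Fintype.sum_sum_type]
      simp [gw]
    simp only [h1, Finset.sum_mul]
    rw [Finset.sum_comm]
    refine Finset.sum_congr rfl fun j _ => ?_
    simp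
  obtain ⟨C, hC⟩ : ∃ C : Place k K → ℤ, ∀ P, C P = (if ∃ t, P.ord (y (Sum.inr t)) ≠
        ∑ s, (wT t s : ℤ) * po β P (y ∘ Sum.inl) s then 1 else 0) +
          (e P + (ρ + Fintype.card T : ℕ) * q P) := ⟨_, fun _ => rfl⟩
  have hp : ∀ s, {P : Place k K | po β P (y ∘ Sum.inl) s ≠ 0}.Finite := fun s =>
    po_finite (hx0 s) (hc s)
  have hCf : {P | C P ≠ 0}.Finite := by
    obtain ⟨U, hU⟩ := exists_supp (k := k) (Finset.univ : Finset T) fun t => y (Sum.inr t)
    refine (((U.finite_toSet.union (Set.finite_iUnion hp)).union hqf).union hef).subset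
      fun P hP => ?_
    by_contra hcon
    simp only [Set.mem_union, Set.mem_iUnion, Set.mem_ofPred_eq, not_or, not_exists, not_not,
      Finset.mem_coe] at hcon
    obtain ⟨⟨⟨h1, h2⟩, h3⟩, h4⟩ := hcon
    apply hP
    rw [hC, h3, h4, if_neg, mul_zero, add_zero, add_zero]
    rintro ⟨t, ht⟩
    apply ht
    rw [Finset.sum_eq_zero fun s _ => by rw [h2, mul_zero]]
    by_contra h
    exact h1 (hU t (Finset.mem_univ _) P h)
  refine ⟨ρ, u, tw b, hu, huW, ?_, ?_⟩
  · have h1 := num2 hbV hb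
    rw [hbc] at h1
    omega
  simp only [← hC]
  obtain ⟨Z, hZ⟩ : ∃ Z : K, Z = (∏ a, mn (y ∘ Sum.inl) (pw c (dg a))) * ∏ a, y (Sum.inr (θ a)) :=
    ⟨_, rfl⟩
  have hZ0 : Z ≠ 0 := by
    rw [hZ]
    refine mul_ne_zero (Finset.prod_ne_zero_iff.2 fun a _ => ?_)
      (Finset.prod_ne_zero_iff.2 fun a _ => hz _)
    rw [mn_pw]
    exact Finset.prod_ne_zero_iff.2 fun s _ => pow_ne_zero _ (hx0 s)
  have hsum := sum_places2 (k := k) (x := y ∘ Sum.inl) hx hc
    (α := fun s => (∑ a, dg a s : ℕ) - (tw b s : ℕ)) (C := C)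
    (lw := fun P => lo β P (y ∘ Sum.inl) u) hCf (lo_finite (x := y ∘ Sum.inl) hx0 hc hu)
    (Θ := (g' * g) / Z) (fun P => ?_)
  · unfold sht
    linarith
  · obtain ⟨δ, hδ⟩ := Pool.Agent.TH812.GV2.exists_locd P
    obtain ⟨τ, hτ0, hτ⟩ := exists_lo (β := β) (P := P) (x := y ∘ Sum.inl) hu
    have hdet : (mx β wT c dg D ζ y (fun a => pw c (dg a)) b (τb τ)).det ≠ 0 := by
      rw [hmx]
      exact mul_ne_zero hτ0 (mul_ne_zero hg' hg)
    have h1 := local_est (wT := wT) hc hζ hδ (hq0 P) (he0 P) hx0 hz (hdir P) (hloss P δ hδ)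
      (hζo P)
      hbV hb (τb τ) hspan hdet
    rw [hmx, hex, ← hZ, mul_div_assoc, P.ord_mul hτ0 (div_ne_zero (mul_ne_zero hg' hg) hZ0)] at h1
    have h2 : (b.card : ℤ) * q P ≤ (ρ + Fintype.card T : ℕ) * q P :=
      mul_le_mul_of_nonneg_right (by rw [hbc]; exact_mod_cast (by omega)) (hq0 P)
    have h3 : ∑ s, ((col β (τb τ) s + tw b s : ℕ) - (∑ a, dg a s : ℕ)) *
        po β P (y ∘ Sum.inl) s = ∑ j, po β P (y ∘ Sum.inl) (β (τ j)) +
        ∑ s, (-(((∑ a, dg a s : ℕ) : ℤ) - (tw b s : ℕ))) * po β P (y ∘ Sum.inl) s := by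
      rw [← hcol τ (fun s => po β P (y ∘ Sum.inl) s), ← Finset.sum_add_distrib]
      exact Finset.sum_congr rfl fun s _ => by push_cast; ring
    rw [h3] at h1
    have h4 := hC P
    rw [← hτ]
    linarith

end glob

end Pool.Agent.K6.H80.FC
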