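import Pool.Agent.K6.H80.FC.Choice
import Pool.Agent.K6.H80.FV.Base

/-!
The local height inequality, with corrections in the coordinates of weight zero.
-/

set_option autoImplicit false
set_option linter.unusedSectionVars false

open MvPolynomial FF Pool.Agent.W603.LV Pool.Agent.W603.PV
open Pool.Agent.TH812.GV2 (Loc)
open Pool.Agent.K6.H80.LV (Ti OK St sM pw up up_le mn mn_pw mn_step pw_mem det_blk sM_up_mem po
  po_le exists_po exists_sc sc)
open Pool.Agent.K6.H80.FV (gw gx gx_inl sum_gx_inl Rx gsc prod_gw_inl gsc_inl fac der_gsc ex ft col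
  tw fac_eq ord_prod_pow ord_factors gw_split det_rank1)

namespace Pool.Agent.K6.H80.FC

variable {k K : Type} [Field k] [Field K] [Algebra k K] {σ S A T : Type} [Fintype σ] [Fintype S]
  [Fintype T]

variable [IsAlgClosed k] [CharZero k] [IsFF k K]
  {β : σ → S} {wT : T → S → ℕ} {c : S → σ} {dg : A → S → ℕ}
  {D : A → (σ →₀ ℕ) → Derivation ℤ K K} {ζ : A → (σ →₀ ℕ) → σ ⊕ T → K}

open scoped Classical in
/-- The order of the determinant at a point with integral coordinates. -/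
theorem ge_mx {P : Place k K} {δ : Derivation ℤ K K} (hδ : Loc P δ) {q e : ℤ} (hq : 0 ≤ q)
    (he : 0 ≤ e) {y : σ ⊕ T → K} (hy : ∀ l, Ge P 0 (y (Sum.inl l)))
    (hdir : ∀ a, ∀ I ∈ St β c (dg a), Ge P (-e) (D a I (unif P)))
    (hloss : ∀ a, ∀ I ∈ St β c (dg a), ∀ g f, Ge P g f →
      Ge P (g - q) (D a I f - D a I (unif P) * δ f))
    (hζo : ∀ a, ∀ I ∈ St β c (dg a), ∀ γ, Ge P (P.ord (ex y γ) - q) (ζ a I γ))
    (I : A → σ →₀ ℕ) (hI : ∀ a, I a ∈ St β c (dg a))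
    (b : Finset (Rx σ S A ⊕ A)) (τ : b → σ ⊕ T) :
    Ge P (∑ j : b, P.ord (ex y (τ j)) - b.card * q - e -
      (if ∃ t, P.ord (y (Sum.inr t)) ≠ 0 then 1 else 0)) (mx β wT c dg D ζ y I b τ).det := by
  obtain ⟨κ, hκ⟩ : ∃ κ : σ ⊕ T → ℤ, ∀ γ, κ γ = P.ord (ex y γ) := ⟨_, fun _ => rfl⟩
  obtain ⟨p, hp⟩ : ∃ p : ℤ, p = if ∃ t, P.ord (y (Sum.inr t)) ≠ 0 then 1 else 0 := ⟨_, rfl⟩
  have hp0 : 0 ≤ p := by rw [hp]; split_ifs <;> norm_num
  simp only [← hκ]
  rw [← hp]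
  have hκy : ∀ γ, Ge P (κ γ) (y γ) := by
    rintro (l | t)
    · rw [hκ, ex, Sum.elim_inl, P.ord_one]
      exact hy l
    · rw [hκ, ex, Sum.elim_inr]
      exact Or.inr le_rfl
  have hw : ∀ γ, Ge P (κ γ - p) (δ (y γ)) := by
    rintro (l | t)
    · rw [hκ, ex, Sum.elim_inl, P.ord_one]
      exact (hδ.2.2 _ (hy l)).mono (by omega)
    · rw [hκ, ex, Sum.elim_inr]
      by_cases h0 : P.ord (y (Sum.inr t)) = 0
      · rw [h0]
        exact (hδ.2.2 _ (Or.inr h0.ge)).mono (by omega)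
      · have hp1 : p = 1 := by rw [hp, if_pos ⟨t, h0⟩]
        rw [hp1]
        exact (Pool.Agent.TH812.GV.ge_der P (q := 0) (D := δ)
          (fun f hf => by rw [neg_zero]; exact hδ.2.2 f hf) (Or.inr le_rfl)).mono (by omega)
  -- the decomposition of the rows
  obtain ⟨α, hα⟩ : ∃ α : Rx σ S A ⊕ A → K, ∀ i, α i = match i with
      | Sum.inl (Sum.inl _) => 0
      | Sum.inl (Sum.inr t) => if OK β dg t then
          y (Sum.inl (c t.2.1)) * D t.1 (sM c (dg t.1) t.2.2.1 (up t.2.2.2 t.2.1)) (unif P) -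
          y (Sum.inl (t.2.2.1 t.2.1)) * D t.1 (sM c (dg t.1) t.2.2.1 t.2.2.2) (unif P) else 0
      | Sum.inr a => D a (I a) (unif P) := ⟨_, fun _ => rfl⟩
  have hαe : ∀ i, Ge P (-e) (α i) := by
    rintro ((s | t) | a)
    · rw [hα]; exact Ge.zero
    · rw [hα]
      dsimp only
      split_ifs with ht
      · refine Ge.mono (by omega : -e ≤ 0 + -e) (Ge.sub ?_ ?_)
        · exact (hy _).mul (hdir _ _ (sM_up_mem ht.1 ht.2.1 ht.2.2))
        · exact (hy _).mul (hdir _ _ ⟨_, _, ht.1, ht.2.1, rfl⟩)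
      · exact Ge.zero
    · rw [hα]; exact hdir a _ (hI a)
  have hre : ∀ i γ, Ge P (κ γ - q) (vv β wT c dg D ζ y I i γ - α i * δ (y γ)) := by
    rintro ((s | t) | a) γ
    · rw [hα]
      simp only [vv, wv, gx, zero_mul, sub_zero]
      have h1 := (Ge.natCast (P := P) (gw β wT γ s)).mul (hκy γ)
      exact h1.mono (by omega)
    · rw [hα]
      simp only [vv, wv, tv]
      split_ifs with ht
      · simp only [Pi.sub_apply, Pi.smul_apply, smul_eq_mul, Ev]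
        have e1 := hζo _ _ (sM_up_mem ht.1 ht.2.1 ht.2.2) γ
        have e2 := hζo t.1 _ ⟨_, _, ht.1, ht.2.1, rfl⟩ γ
        rw [← hκ] at e1 e2
        have h1 := (hy (c t.2.1)).mul
          ((hloss _ _ (sM_up_mem ht.1 ht.2.1 ht.2.2) _ _ (hκy γ)).add e1)
        have h2 := (hy (t.2.2.1 t.2.1)).mul
          ((hloss t.1 _ ⟨_, _, ht.1, ht.2.1, rfl⟩ _ _ (hκy γ)).add e2)
        have h3 := h1.sub h2
        rw [zero_add] at h3
        convert h3 using 1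
        ring
      · simp only [Pi.zero_apply, zero_mul, sub_zero]
        exact Ge.zero
    · rw [hα]
      have e1 := hζo a _ (hI a) γ
      rw [← hκ] at e1
      have h1 := (hloss a _ (hI a) _ _ (hκy γ)).add e1
      simp only [vv, Ev]
      convert h1 using 1
      ring
  have h1 := det_rank1 P (mx β wT c dg D ζ y I b τ) (fun i => α i.1) (fun j => δ (y (τ j)))
    (Matrix.of fun i j => vv β wT c dg D ζ y I i.1 (τ j) - α i.1 * δ (y (τ j))) (fun i j => by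
      rw [Matrix.of_apply, mx, Matrix.of_apply]
      ring) hq hp0 he (fun j => κ (τ j)) (fun i => hαe i.1) (fun j => hw (τ j))
      fun i j => hre i.1 (τ j)
  rw [Fintype.card_coe] at h1
  exact h1

open scoped Classical in
/-- The local inequality. -/
theorem local_est [Fintype A] (hc : ∀ s, β (c s) = s) (hζ : Wt0 β wT ζ) {P : Place k K} {δ : Derivation ℤ K K}
    (hδ : Loc P δ) {q e : ℤ} (hq : 0 ≤ q) (he : 0 ≤ e) {y : σ ⊕ T → K}
    (hx : ∀ s, y (Sum.inl (c s)) ≠ 0) (hz : ∀ t, y (Sum.inr t) ≠ 0)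
    (hdir : ∀ a, ∀ I ∈ St β c (dg a), Ge P (-e) (D a I (unif P)))
    (hloss : ∀ a, ∀ I ∈ St β c (dg a), ∀ g f, Ge P g f →
      Ge P (g - q) (D a I f - D a I (unif P) * δ f))
    (hζo : ∀ a, ∀ I ∈ St β c (dg a), ∀ γ, Ge P (P.ord (ex y γ) - q) (ζ a I γ))
    {b : Finset (Rx σ S A ⊕ A)} (hbp : ∀ s, Sum.inl (Sum.inl s) ∈ b) (hb : ∀ a, Sum.inr a ∈ b)
    (τ : b → σ ⊕ T) (hspan : Submodule.span K (Set.range (wv β wT c dg D ζ y)) ≤
        Submodule.span K (wv β wT c dg D ζ y '' {o | Sum.inl o ∈ b}))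
    (hdet : (mx β wT c dg D ζ y (fun a => pw c (dg a)) b τ).det ≠ 0) :
    ∑ s, ((col β τ s + tw b s : ℕ) - (∑ a, dg a s : ℕ)) * po β P (y ∘ Sum.inl) s -
      b.card * q - e -
      (if ∃ t, P.ord (y (Sum.inr t)) ≠ ∑ s, (wT t s : ℤ) * po β P (y ∘ Sum.inl) s
        then 1 else 0) ≤
      P.ord ((mx β wT c dg D ζ y (fun a => pw c (dg a)) b τ).det /
        ((∏ a, mn (y ∘ Sum.inl) (pw c (dg a))) * ∏ j : b, ex y (τ j))) := by
  obtain ⟨x, hxd⟩ : ∃ x : σ → K, x = y ∘ Sum.inl := ⟨_, rfl⟩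
  have hxl : ∀ l, y (Sum.inl l) = x l := fun l => by rw [hxd]; rfl
  have hx' : ∀ s, x (c s) ≠ 0 := fun s => by rw [← hxl]; exact hx s
  obtain ⟨lam, x', ε, hl, hlo, hxx, hx'0, hε, hε1⟩ := exists_sc hc P hx'
  obtain ⟨y', hy'⟩ : ∃ y' : σ ⊕ T → K, y' = Sum.elim x' fun t =>
    y (Sum.inr t) / ∏ s, lam s ^ wT t s := ⟨_, rfl⟩
  have hL0 : ∀ t, (∏ s, lam s ^ wT t s) ≠ 0 := fun t =>
    Finset.prod_ne_zero_iff.2 fun s _ => pow_ne_zero _ (hl s)
  have hyy : y = gsc β wT lam y' := by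
    funext γ
    rcases γ with l | t
    · rw [gsc_inl, hy', Sum.elim_inl, hxl, hxx, sc]
    · rw [gsc, hy', Sum.elim_inr]
      have h1 : ∏ s, lam s ^ gw β wT (Sum.inr t : σ ⊕ T) s = ∏ s, lam s ^ wT t s := rfl
      rw [h1, mul_div_cancel₀ _ (hL0 t)]
  have hpe : ∀ a, pw ε (dg a) ∈ St β c (dg a) := fun a => pw_mem hε _
  have h1 := det_change hx hb τ hspan (fun a => pw ε (dg a)) hpe
  have h2 := det_lam (wT := wT) (dg := dg) (D := D) hc hζ (y := y') hl hbp τ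
    (fun a => pw ε (dg a))
  rw [← hyy] at h2
  rw [h2] at h1
  obtain ⟨d0, hd0⟩ : ∃ d0, d0 = (mx β wT c dg D ζ y (fun a => pw c (dg a)) b τ).det := ⟨_, rfl⟩
  obtain ⟨d1, hd1⟩ : ∃ d1, d1 = (mx β wT c dg D ζ y' (fun a => pw ε (dg a)) b τ).det := ⟨_, rfl⟩
  rw [← hxd] at h1 ⊢
  rw [← hd0] at hdet h1 ⊢
  rw [← hd1] at h1
  have hmc : ∀ a, mn x (pw c (dg a)) ≠ 0 := fun a => by
    rw [mn_pw]
    exact Finset.prod_ne_zero_iff.2 fun s _ => pow_ne_zero _ (hx' s)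
  have hme : ∀ a, mn x (pw ε (dg a)) = ∏ s, lam s ^ dg a s := fun a => by
    rw [mn_pw]
    refine Finset.prod_congr rfl fun s _ => ?_
    rw [hxx, sc, hε, hε1, mul_one]
  have hme0 : ∀ a, (∏ s, lam s ^ dg a s) ≠ 0 := fun a =>
    Finset.prod_ne_zero_iff.2 fun s _ => pow_ne_zero _ (hl s)
  have hZ0 : (∏ a, mn x (pw c (dg a))) ≠ 0 := Finset.prod_ne_zero_iff.2 fun a _ => hmc a
  have hY0 : (∏ a, ∏ s, lam s ^ dg a s) ≠ 0 := Finset.prod_ne_zero_iff.2 fun a _ => hme0 a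
  obtain ⟨Φ, hΦ⟩ : ∃ Φ, Φ = (∏ j : b, ∏ s, lam s ^ gw β wT (τ j) s) *
    (∏ i : b, fac lam i.1) := ⟨_, rfl⟩
  have hf1 : (∏ j : b, ∏ s, lam s ^ gw β wT (τ j) s) ≠ 0 :=
    Finset.prod_ne_zero_iff.2 fun j _ => Finset.prod_ne_zero_iff.2 fun s _ =>
      pow_ne_zero _ (hl s)
  have hf2 : (∏ i : b, fac lam i.1) = ∏ i : b, ∏ s, lam s ^ ft i.1 s :=
    Finset.prod_congr rfl fun i _ => fac_eq lam i.1
  have hf3 : (∏ i : b, ∏ s, lam s ^ ft i.1 s) ≠ 0 :=
    Finset.prod_ne_zero_iff.2 fun j _ => Finset.prod_ne_zero_iff.2 fun s _ =>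
      pow_ne_zero _ (hl s)
  rw [hf2] at hΦ h1
  have hΦ0 : Φ ≠ 0 := by
    rw [hΦ]
    exact mul_ne_zero hf1 hf3
  have h3 : Φ * d1 = d0 / (∏ a, mn x (pw c (dg a))) * ∏ a, ∏ s, lam s ^ dg a s := by
    rw [hΦ, mul_assoc, h1, Finset.prod_div_distrib]
    simp only [hme]
    field_simp
  have hq0 : d0 / (∏ a, mn x (pw c (dg a))) ≠ 0 := div_ne_zero hdet hZ0
  have hd10 : d1 ≠ 0 := by
    intro h0
    rw [h0, mul_zero] at h3
    exact mul_ne_zero hq0 hY0 h3.symm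
  have h5 := congrArg P.ord h3
  rw [P.ord_mul hΦ0 hd10, P.ord_mul hq0 hY0] at h5
  have h6 : P.ord (∏ a, ∏ s, lam s ^ dg a s) = ∑ s, ((∑ a, dg a s : ℕ) : ℤ) * po β P x s := by
    rw [ord_factors P hl]
    exact Finset.sum_congr rfl fun s _ => by rw [hlo]
  obtain ⟨et, het⟩ : ∃ et : S → ℕ, ∀ s, et s =
    ∑ j : b, Sum.elim (fun _ : σ => 0) (fun t => wT t s) (τ j) := ⟨_, fun _ => rfl⟩
  have h7 : P.ord Φ = ∑ s, ((col β τ s + et s + tw b s : ℕ) : ℤ) * po β P x s := by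
    rw [hΦ, P.ord_mul hf1 hf3, ord_factors P hl, ord_factors P hl, ← Finset.sum_add_distrib]
    refine Finset.sum_congr rfl fun s _ => ?_
    have h8 : ∑ j : b, gw β wT (τ j) s = col β τ s + et s := by
      rw [het, col, ← Finset.sum_add_distrib]
      exact Finset.sum_congr rfl fun j _ => gw_split β wT (τ j) s
    have h9 : tw b s = ∑ i : b, ft i.1 s := rfl
    rw [hlo, h8, ← add_mul, ← h9]
    push_cast
    rfl
  have hex0 : ∀ j : b, ex y (τ j) ≠ 0 := by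
    intro j
    rcases τ j with l | t
    · exact one_ne_zero
    · exact hz t
  have hexp : (∏ j : b, ex y (τ j)) ≠ 0 := Finset.prod_ne_zero_iff.2 fun j _ => hex0 j
  have hexo : ∀ γ, γ ∈ Set.range (Sum.inl : σ → σ ⊕ T) ∨ γ ∈ Set.range (Sum.inr : T → σ ⊕ T) := by
    rintro (l | t)
    · exact Or.inl ⟨l, rfl⟩
    · exact Or.inr ⟨t, rfl⟩
  have hordt : ∀ t, P.ord (y' (Sum.inr t)) =
      P.ord (y (Sum.inr t)) - ∑ s, (wT t s : ℤ) * po β P x s := by
    intro t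
    rw [hy', Sum.elim_inr, P.ord_div (hz t) (hL0 t), ord_prod_pow P hl]
    simp only [hlo]
  have h10 : ∑ j : b, P.ord (ex y' (τ j)) = P.ord (∏ j : b, ex y (τ j)) -
      ∑ s, (et s : ℤ) * po β P x s := by
    rw [Pool.Agent.TH145.GC.ord_prod P _ _ fun j _ => hex0 j]
    have h11 : ∀ γ : σ ⊕ T, P.ord (ex y' γ) = P.ord (ex y γ) -
        ∑ s, ((Sum.elim (fun _ : σ => 0) (fun t => wT t s) γ : ℕ) : ℤ) * po β P x s := by
      rintro (l | t)
      · simp [ex]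
      · simp only [ex, Sum.elim_inr]
        exact hordt t
    rw [Finset.sum_congr rfl fun j _ => h11 (τ j), Finset.sum_sub_distrib, Finset.sum_comm]
    congr 1
    refine Finset.sum_congr rfl fun s _ => ?_
    rw [← Finset.sum_mul, het]
    push_cast
    rfl
  have hζo' : ∀ a, ∀ I ∈ St β c (dg a), ∀ γ, Ge P (P.ord (ex y' γ) - q) (ζ a I γ) := by
    intro a I hI γ
    by_cases h0 : ζ a I γ = 0
    · rw [h0]; exact Ge.zero
    · have e1 := hζo a I hI γ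
      rcases γ with l | t
      · exact absurd (hζ.inl a I l) h0
      · have e2 : y' (Sum.inr t) = y (Sum.inr t) := by
          rw [hy', Sum.elim_inr, Finset.prod_eq_one fun s _ => ?_, div_one]
          have e3 : wT t s = 0 := hζ a I _ h0 s
          rw [e3, pow_zero]
        have e4 : ex y' (Sum.inr t : σ ⊕ T) = ex y (Sum.inr t) := e2
        rw [e4]
        exact e1
  have h8 := (ge_mx (wT := wT) hδ hq he (y := y') (fun l => by
    rw [hy', Sum.elim_inl]; exact hx'0 l) hdir hloss hζo' (fun a => pw ε (dg a)) hpe b τ)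
  rw [← hd1] at h8
  have h9 := h8.resolve_left hd10
  rw [h10] at h9
  have hiff : (∃ t, P.ord (y' (Sum.inr t)) ≠ 0) ↔
      ∃ t, P.ord (y (Sum.inr t)) ≠ ∑ s, (wT t s : ℤ) * po β P x s := by
    refine exists_congr fun t => ?_
    rw [hordt, Ne, sub_eq_zero]
  have hif : (if ∃ t, P.ord (y' (Sum.inr t)) ≠ 0 then (1 : ℤ) else 0) =
      if ∃ t, P.ord (y (Sum.inr t)) ≠ ∑ s, (wT t s : ℤ) * po β P x s then 1 else 0 := by
    by_cases h : ∃ t, P.ord (y' (Sum.inr t)) ≠ 0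
    · rw [if_pos h, if_pos (hiff.1 h)]
    · rw [if_neg h, if_neg fun h' => h (hiff.2 h')]
  rw [hif] at h9
  have h12 : P.ord (d0 / ((∏ a, mn x (pw c (dg a))) * ∏ j : b, ex y (τ j))) =
      P.ord (d0 / (∏ a, mn x (pw c (dg a)))) - P.ord (∏ j : b, ex y (τ j)) := by
    rw [← div_div, P.ord_div hq0 hexp]
  rw [h6, h7] at h5
  rw [h12]
  have h13 : ∑ s, ((col β τ s + tw b s : ℕ) - (∑ a, dg a s : ℕ)) * po β P x s =
      ∑ s, ((col β τ s + et s + tw b s : ℕ) : ℤ) * po β P x s - ∑ s, (et s : ℤ) * po β P x s -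
        ∑ s, ((∑ a, dg a s : ℕ) : ℤ) * po β P x s := by
    rw [← Finset.sum_sub_distrib, ← Finset.sum_sub_distrib]
    exact Finset.sum_congr rfl fun s _ => by push_cast; ring
  rw [h13]
  linarith

end Pool.Agent.K6.H80.FC
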