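import Pool.Agent.K6.H80.FC.Setup

/-!
The height inequality for members of linear systems over function fields, some of whose coefficients
are free.
-/

set_option autoImplicit false
set_option linter.unusedSectionVars false

open MvPolynomial FF Pool.Agent.W603.LV Pool.Agent.W603.PV Pool.Agent.W603.CZ
open Pool.Agent.TH812.GV2 (Loc GoodS exists_duals2 sum_under)
open Pool.Agent.TH812.GV (sum_loss)
open Pool.Agent.TH145.GC (exists_minor)
open Pool.Agent.K6.H80.LV (Ti OK St sM pw up up_le mn mn_pw mn_step pw_mem det_blk sM_up_mem po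
  po_le exists_po exists_sc sc Tan exists_coords der_adjoin bp px px_apply bht po_finite
  hgt_le_bht chain der_coeff DimB Sys finite_st aeval_mn eval_comb)
open Pool.Agent.K6.H80.FV (gw gx gx_inl sum_gx_inl Rx ex pr tan_le tan_blk_le sht Meet IsMulti
  ge_eval tangent le_sht)

namespace Pool.Agent.K6.H80.FC

theorem main2 {k0 k R0 F : Type} [Field k0] [Field k] [Field R0] [Field F] [IsAlgClosed k]
    [CharZero k] [Algebra k0 k] [Algebra k F] [Algebra k0 F] [IsScalarTower k0 k F]
    [Algebra k0 R0] [Algebra R0 F] [IsScalarTower k0 R0 F] [IsFF k F]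
    (hfg : ∃ S : Finset R0, IntermediateField.adjoin k0 (S : Set R0) = ⊤)
    {σ S A T : Type} [Fintype σ] [Fintype S] [Fintype A] [Fintype T]
    {β : σ → S} {c : S → σ} {dg : A → S → ℕ} (hc : ∀ s, β (c s) = s) {m : ℕ} {μ : S → ℕ}
    (V : Set (MvPolynomial σ R0)) (hVm : ∀ f ∈ V, ∃ e, IsMulti β e f) (hV : DimB R0 β V m μ)
    (G0 : A → MvPolynomial σ R0) (hG0 : ∀ a, IsMulti β (dg a) (G0 a))
    {J Q : A → Type} [∀ a, Fintype (J a)] [∀ a, Fintype (Q a)] (P : ∀ a, J a → MvPolynomial σ R0)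
    (hPm : ∀ a j, IsMulti β (dg a) (P a j)) (R : ∀ a, Q a → MvPolynomial σ R0)
    (hRm : ∀ a j, IsMulti β (dg a) (R a j))
    (hP : ∀ a, ∀ I ∈ St β c (dg a), Sys β V (Sum.elim (P a) (R a)) I)
    (cf : ∀ a, J a → F) (hind : AlgebraicIndependent R0 fun p : (Σ a, J a) => cf p.1 p.2)
    (cq : ∀ a, Q a → F)
    {Fm : A → MvPolynomial σ F}
    (hF : ∀ a, Fm a = map (algebraMap R0 F) (G0 a) +
      ∑ j, C (cf a j) * map (algebraMap R0 F) (P a j) +
      ∑ j, C (cq a j) * map (algebraMap R0 F) (R a j)) (ι : T → A) :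
    ∃ C : ℕ, ∀ (L : Type) [Field L] [Algebra k L] [Algebra F L] [Algebra R0 L]
      [IsScalarTower k F L] [IsScalarTower R0 F L] [FiniteDimensional F L] (x : σ → L),
      (∀ s, x (c s) = 1) → (∀ f ∈ V, aeval x f = 0) → (∀ t, aeval x (Fm (ι t)) ≠ 0) →
      (∀ a, IsAlgebraic (IntermediateField.adjoin R0
        (Set.range x ∪ Set.range fun t => aeval x (Fm (ι t)))) (aeval x (Fm a))) →
      ∃ (r : ℕ) (u : Fin (r + Fintype.card S) → σ → L) (w : S → ℕ), r ≤ m ∧
        LinearIndependent L u ∧ (∀ s, px β x s ∈ Submodule.span L (Set.range u)) ∧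
        (∀ i, ∀ f ∈ V, ∑ l, aeval x (pderiv l f) * u i l = 0) ∧
        ∑ s, w s + Fintype.card A ≤ r + Fintype.card T + Fintype.card (Σ a, Q a) ∧
        ∑ s, ((∑ a, dg a s : ℕ) - w s : ℤ) * bht k β x s + sht k β x u ≤
          (Meet k β dg Fm ι x).ncard + canDeg k L + C * Module.finrank F L ∧
        ∑ s, ((∑ a, dg a s : ℕ) - w s - μ s - 1 : ℤ) * bht k β x s ≤
          (Meet k β dg Fm ι x).ncard + canDeg k L + C * Module.finrank F L := by
  classical
  have hFz : CharZero F := charZero_of_injective_algebraMap (algebraMap k F).injective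
  obtain ⟨D0, hD0g, hD0k, hD0⟩ := exists_duals2 (k0 := k0) (k := k) (F0 := R0) (F := F) hfg
    (fun p : (Σ a, J a) => cf p.1 p.2) hind
  choose! e he using hP
  have hFmm : ∀ a, IsMulti β (dg a) (Fm a) := fun a => by
    refine IsMulti.comb (P := fun j : Option (J a ⊕ Q a) => j.elim (G0 a) (Sum.elim (P a) (R a)))
      (c := fun j => j.elim 1 (Sum.elim (cf a) (cq a))) (fun j => ?_) ?_
    · rcases j with _ | (j | j)
      · exact hG0 _
      · exact hPm _ j
      · exact hRm _ j
    · rw [hF, Fintype.sum_option, Fintype.sum_sum_type]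
      simp only [Option.elim_none, Option.elim_some, map_one, one_mul, Sum.elim_inl, Sum.elim_inr]
      rw [add_assoc]
  -- the derivations
  obtain ⟨D, hD⟩ : ∃ D : A → (σ →₀ ℕ) → Derivation ℤ F F, ∀ a I,
      D a I = ∑ j : J a, algebraMap R0 F (e a I (Sum.inl j)) • D0 ⟨a, j⟩ := ⟨_, fun _ _ => rfl⟩
  have hDa : ∀ a I f, D a I f = ∑ j : J a, algebraMap R0 F (e a I (Sum.inl j)) * D0 ⟨a, j⟩ f := by
    intro a I f
    rw [hD, ← Derivation.coeFnAddMonoidHom_apply, map_sum, Finset.sum_apply]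
    rfl
  have hgood : ∀ a I, GoodS k (D a I) := by
    intro a I
    rw [hD]
    exact GoodS.sum _ _ fun j _ => (hD0g _).smul _
  have hDk : ∀ a I (r : R0), D a I (algebraMap R0 F r) = 0 := by
    intro a I r
    rw [hDa]
    exact Finset.sum_eq_zero fun j _ => by rw [hD0k, mul_zero]
  have hDv : ∀ a I b j, D a I (cf b j) = if h : a = b then algebraMap R0 F (e b I (Sum.inl j)) else 0 := by
    intro a I b j
    rw [hDa]
    by_cases hab : a = b
    · subst hab
      rw [dif_pos rfl, Finset.sum_eq_single j]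
      · rw [(hD0 ⟨a, j⟩ ⟨a, j⟩).1 rfl, mul_one]
      · intro j' _ hj'
        rw [(hD0 ⟨a, j'⟩ ⟨a, j⟩).2, mul_zero]
        intro h
        exact hj' (eq_of_heq (Sigma.mk.inj_iff.1 h).2)
      · intro h; exact absurd (Finset.mem_univ _) h
    · rw [dif_neg hab]
      refine Finset.sum_eq_zero fun j' _ => ?_
      rw [(hD0 ⟨a, j'⟩ ⟨b, j⟩).2, mul_zero]
      intro h
      exact hab (congrArg Sigma.fst h)
  -- the loss
  choose q hq0 hqf hq using hgood
  have hfinI : ∀ a, (St β c (dg a)).Finite := fun a => finite_st β c (dg a)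
  -- the other coefficients
  obtain ⟨cn, hcn⟩ : ∃ cn : (Σ a, Q a) → F, ∀ p, cn p = if cq p.1 p.2 = 0 then 1 else cq p.1 p.2 :=
    ⟨_, fun _ => rfl⟩
  have hcn0 : ∀ p, cn p ≠ 0 := fun p => by
    rw [hcn]
    split_ifs with h
    · exact one_ne_zero
    · exact h
  obtain ⟨qz, hqz⟩ : ∃ qz : A → (σ →₀ ℕ) → Place k F → ℤ, ∀ a I v, qz a I v =
      ∑ p : Q a, |v.ord (cn ⟨a, p⟩) - v.ord (algebraMap R0 F (e a I (Sum.inr p)))| :=
    ⟨_, fun _ _ _ => rfl⟩
  have hqz0 : ∀ a I v, 0 ≤ qz a I v := fun a I v => by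
    rw [hqz]
    exact Finset.sum_nonneg fun p _ => abs_nonneg _
  have hqzf : ∀ a I, {v | qz a I v ≠ 0}.Finite := by
    intro a I
    obtain ⟨U1, hU1⟩ := exists_supp (k := k) (Finset.univ : Finset (Q a)) fun p => cn ⟨a, p⟩
    obtain ⟨U2, hU2⟩ := exists_supp (k := k) (Finset.univ : Finset (Q a)) fun p =>
      algebraMap R0 F (e a I (Sum.inr p))
    refine (U1.finite_toSet.union U2.finite_toSet).subset fun v hv => ?_
    by_contra hcon
    simp only [Set.mem_union, Finset.mem_coe, not_or] at hcon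
    apply hv
    rw [hqz]
    refine Finset.sum_eq_zero fun p _ => ?_
    have h1 : v.ord (cn ⟨a, p⟩) = 0 := by
      by_contra h
      exact hcon.1 (hU1 p (Finset.mem_univ _) v h)
    have h2 : v.ord (algebraMap R0 F (e a I (Sum.inr p))) = 0 := by
      by_contra h
      exact hcon.2 (hU2 p (Finset.mem_univ _) v h)
    rw [h1, h2, sub_zero, abs_zero]
  obtain ⟨Qt, hQ⟩ : ∃ Qt : Place k F → ℤ, ∀ v, Qt v = ∑ a, ∑ I ∈ (hfinI a).toFinset,
    (q a I v + qz a I v) := ⟨_, fun _ => rfl⟩
  have hQ0 : ∀ v, 0 ≤ Qt v := fun v => by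
    rw [hQ]
    exact Finset.sum_nonneg fun a _ => Finset.sum_nonneg fun I _ =>
      add_nonneg (hq0 a I v) (hqz0 a I v)
  have hQf : {v | Qt v ≠ 0}.Finite := by
    have h1 : (⋃ a : A, ⋃ I ∈ (hfinI a).toFinset,
        ({v | q a I v ≠ 0} ∪ {v | qz a I v ≠ 0})).Finite :=
      Set.finite_iUnion fun a => (hfinI a).toFinset.finite_toSet.biUnion fun I _ =>
        (hqf a I).union (hqzf a I)
    refine h1.subset fun v hv => ?_
    by_contra hcon
    simp only [Set.mem_iUnion, not_exists, Set.mem_union, not_or, Set.mem_ofPred_eq,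
      not_not] at hcon
    apply hv
    rw [hQ]
    exact Finset.sum_eq_zero fun a _ => Finset.sum_eq_zero fun I hI => by
      rw [(hcon a I hI).1, (hcon a I hI).2, add_zero]
  have hQle' : ∀ a, ∀ I ∈ St β c (dg a), ∀ v, q a I v + qz a I v ≤ Qt v := by
    intro a I hI v
    rw [hQ]
    refine le_trans ?_ (Finset.single_le_sum (f := fun a => ∑ I ∈ (hfinI a).toFinset,
      (q a I v + qz a I v)) (fun a _ => Finset.sum_nonneg fun I _ =>
        add_nonneg (hq0 a I v) (hqz0 a I v)) (Finset.mem_univ a))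
    exact Finset.single_le_sum (f := fun I => q a I v + qz a I v) (fun I _ =>
      add_nonneg (hq0 a I v) (hqz0 a I v)) (by rw [Set.Finite.mem_toFinset]; exact hI)
  have hQle : ∀ a, ∀ I ∈ St β c (dg a), ∀ v, q a I v ≤ Qt v := fun a I hI v => by
    have h1 := hQle' a I hI v
    have h2 := hqz0 a I v
    omega
  have hQz : ∀ a, ∀ I ∈ St β c (dg a), ∀ v (p : Q a),
      v.ord (cn ⟨a, p⟩) - Qt v ≤ v.ord (algebraMap R0 F (e a I (Sum.inr p))) := by
    intro a I hI v p
    have h1 := hQle' a I hI v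
    have h2 := hq0 a I v
    have h3 : |v.ord (cn ⟨a, p⟩) - v.ord (algebraMap R0 F (e a I (Sum.inr p)))| ≤ qz a I v := by
      rw [hqz]
      exact Finset.single_le_sum (f := fun p : Q a =>
        |v.ord (cn ⟨a, p⟩) - v.ord (algebraMap R0 F (e a I (Sum.inr p)))|)
        (fun _ _ => abs_nonneg _) (Finset.mem_univ p)
    have h4 := le_abs_self (v.ord (cn ⟨a, p⟩) - v.ord (algebraMap R0 F (e a I (Sum.inr p))))
    omega
  obtain ⟨C1, hC1⟩ := sum_loss (k := k) hQ0 hQf
  obtain ⟨C3, hC3⟩ := sum_under (k := k) hQ0 hQf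
  -- the places at which the coefficients are not integral
  choose S0 hS0 using fun t => exists_supp (k := k) (Fm (ι t)).support fun u => (Fm (ι t)).coeff u
  obtain ⟨S2, hS2⟩ := exists_supp (k := k) (Finset.univ : Finset (Σ a, Q a)) cn
  obtain ⟨S1, hS1⟩ : ∃ S1 : Finset (Place k F), S1 = Finset.univ.biUnion S0 ∪ S2 := ⟨_, rfl⟩
  have hS2c : ∀ p v, v ∉ S1 → v.ord (cn p) = 0 := by
    intro p v hv
    by_contra h
    apply hv
    rw [hS1]
    exact Finset.mem_union_right _ (hS2 p (Finset.mem_univ _) v h)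
  have hS1c : ∀ t u v, v ∉ S1 → Ge v 0 ((Fm (ι t)).coeff u) := by
    intro t u v hv
    by_cases hu : u ∈ (Fm (ι t)).support
    · right
      have h1 : v.ord ((Fm (ι t)).coeff u) = 0 := by
        by_contra h
        apply hv
        rw [hS1]
        exact Finset.mem_union_left _
          (Finset.mem_biUnion.2 ⟨t, Finset.mem_univ _, hS0 t u hu v h⟩)
      rw [h1]
    · exact Or.inl (notMem_support_iff.1 hu)
  obtain ⟨C2, hC2⟩ : ∃ C2 : ℕ, (C2 : ℤ) = ∑ v ∈ S1, hgt k (unif v) :=
    ⟨(∑ v ∈ S1, hgt k (unif v)).toNat, Int.toNat_of_nonneg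
      (Finset.sum_nonneg fun _ _ => hgt_nonneg _)⟩
  refine ⟨C2 + C1 + (m + Fintype.card S + Fintype.card (T ⊕ (Σ a, Q a))) * C3, ?_⟩
  intro L _ _ _ _ _ _ _ x hx hxV hxT hxA
  have hL : IsFF k L := isFF_of_finite (F := F)
  have hLz : CharZero L := charZero_of_injective_algebraMap (algebraMap k L).injective
  choose D' hD' hDl using fun a I => hq a I L
  obtain ⟨hqfin, hqsum⟩ := hC1 L
  obtain ⟨hufin, husum⟩ := hC3 L
  obtain ⟨el, hel⟩ : ∃ el : Place k L → ℤ, ∀ P, el P =
    ((ram F P : ℤ) - 1) + ram F P * Qt (under F P) := ⟨_, fun _ => rfl⟩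
  obtain ⟨ql, hql⟩ : ∃ ql : Place k L → ℤ, ∀ P, ql P = ram F P * Qt (under F P) :=
    ⟨_, fun _ => rfl⟩
  have hql0 : ∀ P, 0 ≤ ql P := fun P => by
    rw [hql]
    exact mul_nonneg (by positivity) (hQ0 _)
  have hel0 : ∀ P, 0 ≤ el P := fun P => by
    rw [hel]
    have h1 := (ram_spec (F := F) P).1
    have h2 := hql0 P
    rw [hql] at h2
    omega
  have hdir : ∀ P : Place k L, ∀ a, ∀ I ∈ St β c (dg a), Ge P (-el P) (D' a I (unif P)) := by
    intro P a I hI
    rw [hel]
    refine (hDl a I P).1.mono ?_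
    have h1 := hQle a I hI (under F P)
    have h2 : (0 : ℤ) ≤ ram F P := by positivity
    nlinarith
  have hloss : ∀ (P : Place k L) δ, Loc P δ → ∀ a, ∀ I ∈ St β c (dg a), ∀ g f, Ge P g f →
      Ge P (g - ql P) (D' a I f - D' a I (unif P) * δ f) := by
    intro P δ hδ a I hI g f hf
    rw [hql]
    refine ((hDl a I P).2 δ hδ g f hf).mono ?_
    have h1 := hQle a I hI (under F P)
    have h2 : (0 : ℤ) ≤ ram F P := by positivity
    nlinarith
  have hDk' : ∀ a I (r : R0), D' a I (algebraMap R0 L r) = 0 := by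
    intro a I r
    rw [IsScalarTower.algebraMap_apply R0 F L, hD', hDk, map_zero]
  -- the point
  obtain ⟨y, hy⟩ : ∃ y : σ ⊕ (T ⊕ (Σ a, Q a)) → L, y = Sum.elim x
    (Sum.elim (fun t => aeval x (Fm (ι t))) fun p => algebraMap F L (cn p)) := ⟨_, rfl⟩
  have hyx : y ∘ Sum.inl = x := by rw [hy]; rfl
  have hyl : ∀ l, y (Sum.inl l) = x l := fun l => by rw [hy]; rfl
  have hyr : ∀ t, y (Sum.inr (Sum.inl t)) = aeval x (Fm (ι t)) := fun t => by rw [hy]; rfl
  have hyq : ∀ p, y (Sum.inr (Sum.inr p)) = algebraMap F L (cn p) := fun t => by rw [hy]; rfl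
  have hyz : ∀ t, y (Sum.inr t) ≠ 0 := by
    rintro (t | p)
    · rw [hyr]; exact hxT t
    · rw [hyq]
      exact fun h => hcn0 p ((map_eq_zero _).1 h)
  obtain ⟨Fl, hFl⟩ : ∃ Fl : A → MvPolynomial σ L, ∀ a, Fl a = map (algebraMap F L) (Fm a) :=
    ⟨_, fun _ => rfl⟩
  have hFlx : ∀ a, eval x (Fl a) = aeval x (Fm a) := fun a => by
    rw [hFl, eval_map, aeval_def]
  obtain ⟨er, her⟩ : ∃ er : ∀ a, (σ →₀ ℕ) → Q a → L, ∀ a I p, er a I p =
    algebraMap R0 L (e a I (Sum.inr p)) := ⟨_, fun _ _ _ => rfl⟩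
  have hζo : ∀ (P : Place k L) a, ∀ I ∈ St β c (dg a), ∀ γ,
      Ge P (P.ord (ex y γ) - ql P) (zt T σ er a I γ) := by
    rintro P a I hI (l | t | p)
    · exact Ge.zero
    · exact Ge.zero
    · change Ge P _ (if a = p.1 then - er p.1 I p.2 else 0)
      split_ifs with h
      · subst h
        have h1 := hQz p.1 I hI (under F P) p.2
        have h2 : (0 : ℤ) ≤ ram F P := by positivity
        have h3 : Ge P (P.ord (ex y (Sum.inr (Sum.inr p))) - ql P) (er p.1 I p.2) := by
          right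
          change P.ord (y (Sum.inr (Sum.inr p))) - ql P ≤ _
          rw [hyq, her, IsScalarTower.algebraMap_apply R0 F L, ord_under, ord_under, hql]
          nlinarith
        exact h3.neg
      · exact Ge.zero
  obtain ⟨φ, hφ⟩ := exists_Fn (k0 := R0) (dg := dg) hc (fun t => dg (ι t)) G0 P R
    (fun a j => algebraMap F L (cf a j)) (fun a j => algebraMap F L (cq a j)) (F := Fl)
    (fun a => by
      rw [hFl, hF, map_add, map_add, map_sum, map_sum, map_map, ← IsScalarTower.algebraMap_eq]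
      congr 1
      · congr 1
        refine Finset.sum_congr rfl fun j _ => ?_
        rw [map_mul, map_C, map_map, ← IsScalarTower.algebraMap_eq]
      · refine Finset.sum_congr rfl fun j _ => ?_
        rw [map_mul, map_C, map_map, ← IsScalarTower.algebraMap_eq]) hDk'
    (e := fun a I j => algebraMap R0 L (e a I (Sum.inl j))) (er := er)
    (fun b I _ a j => by
      rw [hD', hDv]
      split_ifs
      · rw [← IsScalarTower.algebraMap_apply]
      · rw [map_zero])
    (y := y) (fun s => by rw [hyl]; exact hx s)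
    (fun p b I => by
      rw [hyq, hD', hD', hcn]
      split_ifs with h
      · rw [h, Derivation.map_one_eq_zero, map_zero, map_zero, map_zero]
      · rfl)
    (fun a I hI => by
      rw [hyx, ← aeval_mn (k' := R0), he a I hI L x (fun s => ⟨c s, hc s, hx s⟩) hxV,
        Fintype.sum_sum_type]
      simp only [her, Sum.elim_inl, Sum.elim_inr])
    (fun a => by
      have h1 : (fun t => y (Sum.inr (Sum.inl t))) = fun t => aeval x (Fm (ι t)) := funext hyr
      rw [hyx, hFlx, h1]
      exact hxA a)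
  have hw0 := wt0_zt (β := β) (fun t => dg (ι t)) er
  obtain ⟨htr, htrb⟩ := hV L x (fun s => ⟨c s, hc s, hx s⟩) hxV
  have htan : (Full β (wt Q fun t => dg (ι t)) c dg D' (zt T σ er) y).map
      (pr L σ (T ⊕ (Σ a, Q a))) ≤ Tan R0 β x := by
    have h1 := full_le_tan (k0 := R0) (β := β) (wT := wt Q fun t => dg (ι t)) (c := c) (dg := dg)
      hw0 hDk' y
    rwa [hyx] at h1
  have hrk : Module.finrank L ((Full β (wt Q fun t => dg (ι t)) c dg D' (zt T σ er) y).map
      (pr L σ (T ⊕ (Σ a, Q a)))) ≤ m + Fintype.card S :=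
    (Submodule.finrank_mono htan).trans (tan_le (k0 := R0) hc hx htr)
  have hrkb := fun s => rank_le_blk (k0 := R0) (wT := wt Q fun t => dg (ι t)) (dg := dg) hc hw0
    hDk' (y := y) (fun s => by rw [hyl]; exact hx s) s (m := μ s) (by rw [hyx]; exact htrb s)
  have hef : {P | el P ≠ 0}.Finite := by simp only [hel]; exact hqfin
  have hqf' : {P | ql P ≠ 0}.Finite := by simp only [hql]; exact hufin
  obtain ⟨ρ, u, w, hu, huW, hw, key⟩ := ineq2 (k := k) hc hw0 (y := y)
    (dg := dg) (fun s => by rw [hyl]; exact hx s) hyz hφ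
    hql0 hel0 hqf' hef hdir hloss hζo
  rw [hyx] at key
  have hpx : ∀ s, px β x s ∈ Submodule.span L (Set.range u) := by
    intro s
    rw [huW]
    refine ⟨gx β (wt Q fun t => dg (ι t)) y s, wv_mem_full y (Sum.inl s), ?_⟩
    funext l
    change gx β (wt Q fun t => dg (ι t)) y s (Sum.inl l) = _
    rw [gx_inl, px_apply, hyl]
  have hρ : ρ ≤ m + Fintype.card S := by
    rw [← huW, finrank_span_eq_card hu, Fintype.card_fin] at hrk
    exact hrk
  have hSρ : Fintype.card S ≤ ρ := by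
    have h1 : LinearIndependent L fun s => px β x s := by
      rw [Fintype.linearIndependent_iff]
      intro g hg s
      have h2 := congrFun hg (c s)
      rw [Finset.sum_apply] at h2
      simp only [Pi.smul_apply, smul_eq_mul, Pi.zero_apply] at h2
      rw [Pool.Agent.K6.H80.LV.sum_px, hc, hx, mul_one] at h2
      exact h2
    have h2 := finrank_span_eq_card h1
    have h3 : Submodule.span L (Set.range fun s => px β x s) ≤ Submodule.span L (Set.range u) := by
      rw [Submodule.span_le]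
      rintro _ ⟨s, rfl⟩
      exact hpx s
    have h4 := Submodule.finrank_mono h3
    rw [h2, finrank_span_eq_card hu, Fintype.card_fin] at h4
    exact h4
  obtain ⟨r, rfl⟩ : ∃ r, ρ = r + Fintype.card S := ⟨ρ - Fintype.card S, by omega⟩
  have hutan : ∀ i, ∀ f ∈ V, ∑ l, aeval x (pderiv l f) * u i l = 0 := by
    intro i f hf
    obtain ⟨e, he⟩ := hVm f hf
    refine tangent (k0 := R0) (β := β) (htan ?_) he (hxV f hf)
    rw [← huW]
    exact Submodule.subset_span ⟨i, rfl⟩
  have hsht := le_sht (k := k) hx hc hu (μ := μ) fun s => by rw [huW]; exact hrkb s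
  suffices hsuff : ∑ s, ((∑ a, dg a s : ℕ) - w s : ℤ) * bht k β x s + sht k β x u ≤
      (Meet k β dg Fm ι x).ncard + canDeg k L +
        (C2 + C1 + (m + Fintype.card S + Fintype.card (T ⊕ (Σ a, Q a))) * C3 : ℕ) *
          Module.finrank F L by
    refine ⟨r, u, w, by omega, hu, hpx, hutan, by
      rw [Fintype.card_sum] at hw
      omega, hsuff, ?_⟩
    have h1 : ∑ s, ((∑ a, dg a s : ℕ) - w s - μ s - 1 : ℤ) * bht k β x s =
        ∑ s, ((∑ a, dg a s : ℕ) - w s : ℤ) * bht k β x s +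
          (- ∑ s, ((μ s : ℤ) + 1) * bht k β x s) := by
      rw [← sub_eq_add_neg, ← Finset.sum_sub_distrib]
      exact Finset.sum_congr rfl fun s _ => by ring
    rw [h1]
    linarith
  refine key.trans ?_
  -- the counting function
  obtain ⟨cnt, hcnt⟩ : ∃ cnt : Place k L → ℤ, ∀ P, cnt P = if ∃ t, P.ord (y (Sum.inr t)) ≠
    ∑ s, (wt Q (fun t => dg (ι t)) t s : ℤ) * po β P x s then 1 else 0 := ⟨_, fun _ => rfl⟩
  simp only [← hcnt]
  obtain ⟨Mt, hMt⟩ : ∃ Mt : Set (Place k L), Mt = Meet k β dg Fm ι x := ⟨_, rfl⟩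
  have hpf : ∀ s, {P : Place k L | po β P x s ≠ 0}.Finite := fun s =>
    po_finite (by rw [hx]; exact one_ne_zero) (hc s)
  have hMfin : Mt.Finite := by
    obtain ⟨U, hU⟩ := exists_supp (k := k) (Finset.univ : Finset T) fun t => aeval x (Fm (ι t))
    refine (U.finite_toSet.union (Set.finite_iUnion hpf)).subset fun P hP => ?_
    by_contra hcon
    simp only [Set.mem_union, Set.mem_iUnion, Set.mem_ofPred_eq, not_or, not_exists, not_not,
      Finset.mem_coe] at hcon
    obtain ⟨h1, h2⟩ := hcon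
    rw [hMt] at hP
    obtain ⟨t, ht⟩ := hP
    rw [Finset.sum_eq_zero fun s _ => by rw [h2, mul_zero]] at ht
    exact h1 (hU t (Finset.mem_univ _) P ht.ne')
  have hBfin : {P : Place k L | under F P ∈ S1}.Finite := finite_over_set (Finset.finite_toSet S1)
  have hcle : ∀ P, cnt P ≤ 1 := by
    intro P
    rw [hcnt]
    split_ifs <;> norm_num
  have hcsupp : ∀ P, cnt P ≠ 0 → P ∈ Mt ∪ {P : Place k L | under F P ∈ S1} := by
    intro P hP
    rw [hcnt] at hP
    obtain ⟨t, ht⟩ : ∃ t, P.ord (y (Sum.inr t)) ≠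
        ∑ s, (wt Q (fun t => dg (ι t)) t s : ℤ) * po β P x s := by
      by_contra h
      rw [if_neg h] at hP
      exact hP rfl
    by_cases hu : under F P ∈ S1
    · exact Or.inr hu
    · left
      obtain ⟨t, rfl⟩ : ∃ t0, t = Sum.inl t0 := by
        rcases t with t0 | p
        · exact ⟨t0, rfl⟩
        · exfalso
          apply ht
          rw [hyq, ord_under, hS2c p _ hu, mul_zero]
          simp [wt]
      change P.ord (y (Sum.inr (Sum.inl t))) ≠ ∑ s, (dg (ι t) s : ℤ) * po β P x s at ht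
      rw [hyr] at ht
      rw [hMt]
      refine ⟨t, lt_of_le_of_ne ?_ ht.symm⟩
      have hmul : IsMulti β (dg (ι t)) (Fl (ι t)) := by
        rw [hFl]
        exact (hFmm (ι t)).map _
      have h1 := ge_eval hmul P (fun I => by
        rw [hFl, coeff_map]
        rcases hS1c t I (under F P) hu with h | h
        · left; rw [h, map_zero]
        · right
          rw [ord_under]
          exact mul_nonneg (by positivity) h) x
      rw [hFlx] at h1
      exact h1.resolve_left (hxT t)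
  have hcfin : {P | cnt P ≠ 0}.Finite := (hMfin.union hBfin).subset hcsupp
  have hcsum : ∑ᶠ P, cnt P ≤ Mt.ncard + Module.finrank F L * C2 := by
    have h1 := Pool.Agent.TH812.GV.finsum_le_card (hMfin.union hBfin) (M := 1) hcle hcsupp
    have h2 : (((Mt ∪ {P : Place k L | under F P ∈ S1}).ncard : ℕ) : ℤ) ≤
        Mt.ncard + Module.finrank F L * C2 := by
      have h3 := Set.ncard_union_le Mt {P : Place k L | under F P ∈ S1}
      have h4 := card_over_le (L := L) S1
      rw [← hC2] at h4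
      have h5 : (((Mt ∪ {P : Place k L | under F P ∈ S1}).ncard : ℕ) : ℤ) ≤
        (Mt.ncard : ℤ) + ({P : Place k L | under F P ∈ S1}.ncard : ℕ) := by exact_mod_cast h3
      linarith
    rw [one_mul] at h1
    exact h1.trans h2
  obtain ⟨B, hBd⟩ : ∃ B : ℤ, B = (r + Fintype.card S + Fintype.card (T ⊕ (Σ a, Q a)) : ℕ) :=
    ⟨_, rfl⟩
  have hB0 : 0 ≤ B := by rw [hBd]; positivity
  have hBle : B ≤ m + Fintype.card S + Fintype.card (T ⊕ (Σ a, Q a)) := by
    rw [hBd]
    exact_mod_cast (by omega)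
  simp only [← hBd]
  have hfq' : {P | B * ql P ≠ 0}.Finite := hqf'.subset fun P hP => right_ne_zero_of_mul hP
  have hfs : ∑ᶠ P : Place k L, (cnt P + (el P + B * ql P)) =
      ∑ᶠ P, cnt P + (∑ᶠ P, el P + B * ∑ᶠ P, ql P) := by
    rw [finsum_add_distrib hcfin ((hef.union hfq').subset fun P hP => by
      by_contra hcon
      simp only [Set.mem_union, Set.mem_ofPred_eq, not_or, not_not] at hcon
      apply hP
      dsimp only
      rw [hcon.1, hcon.2, add_zero]), finsum_add_distrib hef hfq', ← mul_finsum]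
  rw [hfs]
  have hes : ∑ᶠ P, el P ≤ canDeg k L + C1 * Module.finrank F L := by
    have h1 : el = fun P => ((ram F P : ℤ) - 1) + ram F P * Qt (under F P) := funext hel
    rw [h1]
    exact hqsum
  have hqs : ∑ᶠ P, ql P ≤ C3 * Module.finrank F L := by
    have h1 : ql = fun P => (ram F P : ℤ) * Qt (under F P) := funext hql
    rw [h1]
    exact husum
  have h10 : B * ∑ᶠ P, ql P ≤ (m + Fintype.card S + Fintype.card (T ⊕ (Σ a, Q a))) *
      (C3 * Module.finrank F L) :=
    (mul_le_mul_of_nonneg_left hqs hB0).trans (mul_le_mul_of_nonneg_right hBle (by positivity))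
  rw [← hMt]
  have hcast : ((C2 + C1 + (m + Fintype.card S + Fintype.card (T ⊕ (Σ a, Q a))) * C3 : ℕ) : ℤ) =
      C2 + C1 + (m + Fintype.card S + Fintype.card (T ⊕ (Σ a, Q a))) * C3 := by
    push_cast
    ring
  rw [hcast]
  have hfinal : (Mt.ncard + Module.finrank F L * C2 : ℤ) + (canDeg k L + C1 * Module.finrank F L +
      (m + Fintype.card S + Fintype.card (T ⊕ (Σ a, Q a))) * (C3 * Module.finrank F L)) =
      Mt.ncard + canDeg k L + (C2 + C1 + (m + Fintype.card S +
        Fintype.card (T ⊕ (Σ a, Q a))) * C3) *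
        Module.finrank F L := by
    ring
  rw [← hfinal]
  exact add_le_add hcsum (add_le_add hes h10)

end Pool.Agent.K6.H80.FC
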