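import Pool.Agent.K6.H80.FV.Choice

/-!
Vector fields that are dual to the coefficients of the monomials in two variables of each block, with
additional weighted coordinates, and with corrections in the coordinates of weight zero.
-/

set_option autoImplicit false
set_option linter.unusedSectionVars false

open MvPolynomial FF Pool.Agent.W603.LV Pool.Agent.W603.PV
open Pool.Agent.K6.H80.LV (mn sM St pw up OK Ti mn_step sM_zero mn_pw)
open Pool.Agent.K6.H80.FV (gw gx gx_inl sum_gx_inl Rx gsc prod_gw_inl gsc_inl fac der_gsc)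

namespace Pool.Agent.K6.H80.FC

variable {K : Type} [Field K] {σ S A T : Type} [Fintype σ] [Fintype S]

/-- The vector of the derivatives of the coordinates, with the corrections. -/
def Ev (D : A → (σ →₀ ℕ) → Derivation ℤ K K) (ζ : A → (σ →₀ ℕ) → σ ⊕ T → K) (y : σ ⊕ T → K)
    (a : A) (I : σ →₀ ℕ) : σ ⊕ T → K :=
  fun γ => D a I (y γ) + ζ a I γ

open scoped Classical in
/-- The tangent vector fields. -/
noncomputable def tv (β : σ → S) (c : S → σ) (dg : A → S → ℕ)
    (D : A → (σ →₀ ℕ) → Derivation ℤ K K) (ζ : A → (σ →₀ ℕ) → σ ⊕ T → K) (y : σ ⊕ T → K)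
    (t : Ti σ S A) : σ ⊕ T → K :=
  if OK β dg t then
    y (Sum.inl (c t.2.1)) • Ev D ζ y t.1 (sM c (dg t.1) t.2.2.1 (up t.2.2.2 t.2.1)) -
      y (Sum.inl (t.2.2.1 t.2.1)) • Ev D ζ y t.1 (sM c (dg t.1) t.2.2.1 t.2.2.2) else 0

/-- The position vectors and the tangent vector fields. -/
noncomputable def wv (β : σ → S) (wT : T → S → ℕ) (c : S → σ) (dg : A → S → ℕ)
    (D : A → (σ →₀ ℕ) → Derivation ℤ K K) (ζ : A → (σ →₀ ℕ) → σ ⊕ T → K) (y : σ ⊕ T → K) :
    Rx σ S A → σ ⊕ T → K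
  | Sum.inl s => gx β wT y s
  | Sum.inr t => tv β c dg D ζ y t

/-- The rows: the vector fields and the derivatives with the exponents `I`. -/
noncomputable def vv (β : σ → S) (wT : T → S → ℕ) (c : S → σ) (dg : A → S → ℕ)
    (D : A → (σ →₀ ℕ) → Derivation ℤ K K) (ζ : A → (σ →₀ ℕ) → σ ⊕ T → K)
    (y : σ ⊕ T → K) (I : A → σ →₀ ℕ) : Rx σ S A ⊕ A → σ ⊕ T → K
  | Sum.inl o => wv β wT c dg D ζ y o
  | Sum.inr a => Ev D ζ y a (I a)

/-- The corrections are in coordinates of weight zero. -/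
def Wt0 (β : σ → S) (wT : T → S → ℕ) (ζ : A → (σ →₀ ℕ) → σ ⊕ T → K) : Prop :=
  ∀ a I γ, ζ a I γ ≠ 0 → ∀ s, gw β wT γ s = 0

theorem Wt0.inl {β : σ → S} {wT : T → S → ℕ} {ζ : A → (σ →₀ ℕ) → σ ⊕ T → K} (h : Wt0 β wT ζ)
    (a : A) (I : σ →₀ ℕ) (l : σ) : ζ a I (Sum.inl l) = 0 := by
  by_contra h0
  have h1 := h a I _ h0 (β l)
  simp [gw] at h1

theorem Wt0.mul {β : σ → S} {wT : T → S → ℕ} {ζ : A → (σ →₀ ℕ) → σ ⊕ T → K} (h : Wt0 β wT ζ)
    (lam : S → K) (a : A) (I : σ →₀ ℕ) (γ : σ ⊕ T) :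
    ζ a I γ = (∏ s, lam s ^ gw β wT γ s) * ζ a I γ := by
  by_cases h0 : ζ a I γ = 0
  · rw [h0, mul_zero]
  · rw [Finset.prod_eq_one fun s _ => by rw [h a I γ h0 s, pow_zero], one_mul]

theorem vv_scale {β : σ → S} {wT : T → S → ℕ} {c : S → σ} (hc : ∀ s, β (c s) = s)
    (dg : A → S → ℕ)
    (D : A → (σ →₀ ℕ) → Derivation ℤ K K) {ζ : A → (σ →₀ ℕ) → σ ⊕ T → K} (hζ : Wt0 β wT ζ)
    (y : σ ⊕ T → K) {lam : S → K}
    (hl : ∀ s, lam s ≠ 0) (I : A → σ →₀ ℕ) :
    ∃ κ : Rx σ S A ⊕ A → S → K, (∀ s s', κ (Sum.inl (Sum.inl s)) s' = 0) ∧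
      ∀ i γ, vv β wT c dg D ζ (gsc β wT lam y) I i γ =
        (∏ s, lam s ^ gw β wT γ s) *
          (fac lam i * (vv β wT c dg D ζ y I i γ + ∑ s, κ i s * gx β wT y s γ)) := by
  classical
  refine ⟨fun i s => match i with
    | Sum.inl (Sum.inl _) => 0
    | Sum.inl (Sum.inr t) => if OK β dg t then
        y (Sum.inl (c t.2.1)) *
          (D t.1 (sM c (dg t.1) t.2.2.1 (up t.2.2.2 t.2.1)) (lam s) / lam s) -
          y (Sum.inl (t.2.2.1 t.2.1)) *
            (D t.1 (sM c (dg t.1) t.2.2.1 t.2.2.2) (lam s) / lam s) else 0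
    | Sum.inr a => D a (I a) (lam s) / lam s, fun s s' => rfl, ?_⟩
  rintro ((s | t) | a) γ
  · simp only [vv, wv, fac, zero_mul, one_mul, Finset.sum_const_zero, add_zero]
    rw [gx, gx, gsc]
    ring
  · simp only [vv, wv, fac, tv]
    by_cases ht : OK β dg t
    · simp only [if_pos ht, Pi.sub_apply, Pi.smul_apply, smul_eq_mul, Ev]
      rw [der_gsc β wT hl, der_gsc β wT hl]
      have h1 : gsc β wT lam y (Sum.inl (c t.2.1)) = lam t.2.1 * y (Sum.inl (c t.2.1)) := by
        rw [gsc_inl, hc]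
      have h2 : gsc β wT lam y (Sum.inl (t.2.2.1 t.2.1)) =
          lam t.2.1 * y (Sum.inl (t.2.2.1 t.2.1)) := by
        rw [gsc_inl, ht.1]
      have h3 := hζ.mul lam t.1 (sM c (dg t.1) t.2.2.1 (up t.2.2.2 t.2.1)) γ
      have h4 := hζ.mul lam t.1 (sM c (dg t.1) t.2.2.1 t.2.2.2) γ
      rw [h1, h2]
      simp only [sub_mul, Finset.sum_sub_distrib, mul_assoc, ← Finset.mul_sum]
      linear_combination (lam t.2.1 * y (Sum.inl (c t.2.1))) * h3 -
        (lam t.2.1 * y (Sum.inl (t.2.2.1 t.2.1))) * h4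
    · simp only [if_neg ht, Pi.zero_apply, zero_mul, Finset.sum_const_zero, add_zero, mul_zero]
  · simp only [vv, fac, one_mul, Ev]
    have h3 := hζ.mul lam a (I a) γ
    rw [der_gsc β wT hl y (D a (I a)) γ]
    linear_combination h3

/-- The derivatives, modulo the tangent vectors. -/
theorem Ev_mod {β : σ → S} {wT : T → S → ℕ} {c : S → σ} (dg : A → S → ℕ)
    (D : A → (σ →₀ ℕ) → Derivation ℤ K K) (ζ : A → (σ →₀ ℕ) → σ ⊕ T → K) {y : σ ⊕ T → K}
    (hx : ∀ s, y (Sum.inl (c s)) ≠ 0) (a : A) {J : σ →₀ ℕ} (hJ : J ∈ St β c (dg a)) :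
    Ev D ζ y a J - (mn (y ∘ Sum.inl) J / mn (y ∘ Sum.inl) (pw c (dg a))) •
        Ev D ζ y a (pw c (dg a)) ∈
      Submodule.span K (Set.range (wv β wT c dg D ζ y)) := by
  classical
  obtain ⟨x, hxd⟩ : ∃ x : σ → K, x = y ∘ Sum.inl := ⟨_, rfl⟩
  have hxl : ∀ l, y (Sum.inl l) = x l := fun l => by rw [hxd]; rfl
  simp only [hxl] at hx
  rw [← hxd]
  obtain ⟨W, hW⟩ : ∃ W, W = Submodule.span K (Set.range (wv β wT c dg D ζ y)) := ⟨_, rfl⟩
  have hgW : ∀ o, wv β wT c dg D ζ y o ∈ W := fun o => hW ▸ Submodule.subset_span ⟨o, rfl⟩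
  rw [← hW]
  have hc0 : mn x (pw c (dg a)) ≠ 0 := by
    rw [mn_pw]
    exact Finset.prod_ne_zero_iff.2 fun s _ => pow_ne_zero _ (hx s)
  obtain ⟨l, j, hl, hj, rfl⟩ := hJ
  -- induction on the sum of the exponents
  have key : ∀ (N : ℕ) (j : S → ℕ), (∀ s, j s ≤ dg a s) → ∑ s, j s = N →
      Ev D ζ y a (sM c (dg a) l j) - (mn x (sM c (dg a) l j) / mn x (pw c (dg a))) •
        Ev D ζ y a (pw c (dg a)) ∈ W := by
    intro N
    induction N with
    | zero =>
      intro j hj hN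
      have h0 : j = 0 := by
        funext s
        exact (Finset.sum_eq_zero_iff.1 hN) s (Finset.mem_univ s)
      rw [h0, sM_zero]
      change Ev D ζ y a (pw c (dg a)) - (mn x (pw c (dg a)) / _) • _ ∈ W
      rw [div_self hc0, one_smul, sub_self]
      exact zero_mem _
    | succ N ih =>
      intro j hj hN
      obtain ⟨s, hs⟩ : ∃ s, 0 < j s := by
        by_contra hcon
        push Not at hcon
        have : ∑ s, j s = 0 := Finset.sum_eq_zero fun s _ => by have := hcon s; omega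
        omega
      obtain ⟨j', hj'⟩ : ∃ j' : S → ℕ, ∀ s', j' s' = if s' = s then j s - 1 else j s' :=
        ⟨_, fun _ => rfl⟩
      have hjj : j = up j' s := by
        funext s'
        unfold up
        split_ifs with h
        · rw [h, hj', if_pos rfl]
          omega
        · rw [hj', if_neg h]
      have hj's : j' s = j s - 1 := by rw [hj', if_pos rfl]
      have hle : ∀ s', j' s' ≤ dg a s' := by
        intro s'
        rw [hj']
        split_ifs with h
        · subst h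
          have := hj s'
          omega
        · exact hj s'
      have hlt : j' s < dg a s := by
        have := hj s
        omega
      have hsum : ∑ s', j' s' = N := by
        have h1 : ∑ s', j s' = ∑ s', j' s' + 1 := by
          have h2 : ∑ s' ∈ Finset.univ.erase s, j s' = ∑ s' ∈ Finset.univ.erase s, j' s' :=
            Finset.sum_congr rfl fun s' hs' => by
              rw [hj', if_neg (Finset.ne_of_mem_erase hs')]
          rw [← Finset.add_sum_erase _ j (Finset.mem_univ s),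
            ← Finset.add_sum_erase _ j' (Finset.mem_univ s), hj's, h2]
          omega
        omega
      have h1 := ih j' hle hsum
      have h2 := hgW (Sum.inr (a, s, l, j'))
      have hok : OK β dg (a, s, l, j') := ⟨hl, hle, hlt⟩
      simp only [wv, tv] at h2
      rw [if_pos hok, hxl, hxl] at h2
      rw [hjj]
      have h3 := mn_step x c (dg a) l j' s hlt
      have hcs := hx s
      have h5 : mn x (sM c (dg a) l (up j' s)) = x (l s) * mn x (sM c (dg a) l j') / x (c s) := by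
        rw [← h3]
        field_simp
      have h4 : Ev D ζ y a (sM c (dg a) l (up j' s)) -
          (mn x (sM c (dg a) l (up j' s)) / mn x (pw c (dg a))) • Ev D ζ y a (pw c (dg a)) =
          (x (c s))⁻¹ • (x (c s) • Ev D ζ y a (sM c (dg a) l (up j' s)) -
            x (l s) • Ev D ζ y a (sM c (dg a) l j')) +
          (x (l s) / x (c s)) • (Ev D ζ y a (sM c (dg a) l j') -
            (mn x (sM c (dg a) l j') / mn x (pw c (dg a))) • Ev D ζ y a (pw c (dg a))) := by
        rw [h5]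
        funext p
        simp only [Pi.add_apply, Pi.sub_apply, Pi.smul_apply, smul_eq_mul]
        field_simp
        ring
      rw [h4]
      exact add_mem (Submodule.smul_mem _ _ h2) (Submodule.smul_mem _ _ h1)
  exact key _ j hj rfl

end Pool.Agent.K6.H80.FC
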