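import Pool.Agent.K6.H80.FC.Glob

/-!
The functionals, for members of linear systems with coefficients that are free, and others.
-/

set_option autoImplicit false
set_option linter.unusedSectionVars false

open MvPolynomial FF Pool.Agent.W603.LV Pool.Agent.W603.PV
open Pool.Agent.K6.H80.LV (Ti OK St sM pw up up_le mn mn_pw mn_step pw_mem det_blk sM_up_mem po
  po_le exists_po exists_sc sc Tan exists_coords der_adjoin bp px px_apply bht po_finite
  hgt_le_bht chain der_coeff DimB Sys finite_st aeval_mn eval_comb)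
open Pool.Agent.K6.H80.FV (gw gx gx_inl sum_gx_inl exists_fn)

namespace Pool.Agent.K6.H80.FC

section

variable {k0 L : Type} [Field k0] [Field L] [Algebra k0 L] {σ S A T : Type} [Fintype σ]
  [Fintype S] [Fintype T] {β : σ → S} {c : S → σ} {dg : A → S → ℕ} {Q : A → Type}

/-- The weights of the additional coordinates. -/
def wt (Q : A → Type) (w : T → S → ℕ) : T ⊕ (Σ a, Q a) → S → ℕ := Sum.elim w fun _ _ => 0

open scoped Classical in
/-- The corrections. -/
noncomputable def zt (T : Type) (σ : Type) (er : ∀ a, (σ →₀ ℕ) → Q a → L) (a : A) (I : σ →₀ ℕ) :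
    σ ⊕ (T ⊕ (Σ a, Q a)) → L :=
  Sum.elim (fun _ => 0) (Sum.elim (fun _ => 0) fun p => if a = p.1 then - er p.1 I p.2 else 0)

theorem wt0_zt (w : T → S → ℕ) (er : ∀ a, (σ →₀ ℕ) → Q a → L) :
    Wt0 β (wt Q w) (zt T σ er) := by
  rintro a I (l | t | p) h s
  · exact absurd rfl h
  · exact absurd rfl h
  · rfl

open scoped Classical in
/-- The functionals. -/
theorem exists_Fn [Fintype A] [CharZero L] (hc : ∀ s, β (c s) = s) {J : A → Type}
    [∀ a, Fintype (J a)] [∀ a, Fintype (Q a)] (w : T → S → ℕ)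
    (G0 : A → MvPolynomial σ k0) (P : ∀ a, J a → MvPolynomial σ k0)
    (R : ∀ a, Q a → MvPolynomial σ k0) (cf : ∀ a, J a → L) (cq : ∀ a, Q a → L)
    {F : A → MvPolynomial σ L} (hF : ∀ a, F a = map (algebraMap k0 L) (G0 a) +
      ∑ j, C (cf a j) * map (algebraMap k0 L) (P a j) +
      ∑ j, C (cq a j) * map (algebraMap k0 L) (R a j))
    {D : A → (σ →₀ ℕ) → Derivation ℤ L L} (hDk : ∀ a I (r : k0), D a I (algebraMap k0 L r) = 0)
    {e : ∀ a, (σ →₀ ℕ) → J a → L} {er : ∀ a, (σ →₀ ℕ) → Q a → L}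
    (hD : ∀ b, ∀ I ∈ St β c (dg b), ∀ a j, D b I (cf a j) = if b = a then e a I j else 0)
    {y : σ ⊕ (T ⊕ (Σ a, Q a)) → L} (hx : ∀ s, y (Sum.inl (c s)) = 1)
    (hyq : ∀ p : Σ a, Q a, ∀ b I, D b I (y (Sum.inr (Sum.inr p))) = D b I (cq p.1 p.2))
    (he : ∀ a, ∀ I ∈ St β c (dg a), ∑ j, e a I j * aeval (y ∘ Sum.inl) (P a j) +
      ∑ j, er a I j * aeval (y ∘ Sum.inl) (R a j) = mn (y ∘ Sum.inl) I)
    (halg : ∀ a, IsAlgebraic (IntermediateField.adjoin k0
      (Set.range (y ∘ Sum.inl) ∪ Set.range fun t => y (Sum.inr (Sum.inl t))))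
      (eval (y ∘ Sum.inl) (F a))) :
    ∃ φ : A → σ ⊕ (T ⊕ (Σ a, Q a)) → L, Fn β (wt Q w) c dg D (zt T σ er) y φ := by
  classical
  obtain ⟨x, hxd⟩ : ∃ x : σ → L, x = y ∘ Sum.inl := ⟨_, rfl⟩
  have hxl : ∀ l, y (Sum.inl l) = x l := fun l => by rw [hxd]; rfl
  obtain ⟨y0, hy0⟩ : ∃ y0 : σ ⊕ T → L, y0 = Sum.elim x fun t => y (Sum.inr (Sum.inl t)) := ⟨_, rfl⟩
  have hy0x : y0 ∘ Sum.inl = x := by rw [hy0]; rfl
  have hy0l : ∀ l, y0 (Sum.inl l) = x l := fun l => by rw [hy0]; rfl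
  have hy0r : ∀ t, y0 (Sum.inr t) = y (Sum.inr (Sum.inl t)) := fun t => by rw [hy0]; rfl
  have hy0range : Set.range y0 = Set.range x ∪ Set.range fun t => y (Sum.inr (Sum.inl t)) := by
    rw [hy0, Set.Sum.elim_range]
  rw [← hxd] at he halg
  simp only [hxl] at hx
  -- all the coefficients
  obtain ⟨P', hP'⟩ : ∃ P' : ∀ a, Option (J a ⊕ Q a) → MvPolynomial σ k0, ∀ a j, P' a j =
    j.elim (G0 a) (Sum.elim (P a) (R a)) := ⟨_, fun _ _ => rfl⟩
  obtain ⟨cf', hcf'⟩ : ∃ cf' : ∀ a, Option (J a ⊕ Q a) → L, ∀ a j, cf' a j =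
    j.elim 1 (Sum.elim (cf a) (cq a)) := ⟨_, fun _ _ => rfl⟩
  have hFc : ∀ a, F a = ∑ j, C (cf' a j) * map (algebraMap k0 L) (P' a j) := by
    intro a
    rw [hF, Fintype.sum_option, Fintype.sum_sum_type, hcf', hP']
    simp only [Option.elim_none, map_one, one_mul, hcf', hP', Option.elim_some, Sum.elim_inl,
      Sum.elim_inr]
    rw [add_assoc]
  choose φ hφ1 hφ2 using fun a => exists_fn (k0 := k0) (wT := w) hc (y := y0)
    (fun s => by rw [hy0l]; exact hx s) (F a) (by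
      rw [hy0range, hy0x]
      exact halg a)
  have hφ3 : ∀ a b, ∀ I ∈ St β c (dg b),
      ∑ l, φ a (Sum.inl l) * D b I (x l) + ∑ t, φ a (Sum.inr t) * D b I (y (Sum.inr (Sum.inl t))) =
        - ((∑ j, (if b = a then e a I j else 0) * aeval x (P a j)) +
          ∑ j, D b I (cq a j) * aeval x (R a j)) := by
    intro a b I hI
    have h1 := hφ2 a (D b I) (hDk b I)
    rw [hy0x, der_coeff (P' a) (cf' a) (D b I) (hDk b I) _ (hFc a), Fintype.sum_sum_type,
      Fintype.sum_option, Fintype.sum_sum_type] at h1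
    simp only [hy0l, hy0r, hcf', hP', Option.elim_none, Option.elim_some, Sum.elim_inl,
      Sum.elim_inr, Derivation.map_one_eq_zero, zero_mul, zero_add, hD b I hI] at h1
    exact h1
  obtain ⟨ψ, hψ⟩ : ∃ ψ : A → σ ⊕ (T ⊕ (Σ a, Q a)) → L, ∀ a, ψ a =
    Sum.elim (fun l => φ a (Sum.inl l)) (Sum.elim (fun t => φ a (Sum.inr t))
      fun p => if p.1 = a then aeval x (R p.1 p.2) else 0) := ⟨_, fun _ => rfl⟩
  have hsum : ∀ (a : A) (v : σ ⊕ (T ⊕ (Σ a, Q a)) → L), ∑ γ, ψ a γ * v γ =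
      ∑ l, φ a (Sum.inl l) * v (Sum.inl l) + ∑ t, φ a (Sum.inr t) * v (Sum.inr (Sum.inl t)) +
        ∑ j : Q a, aeval x (R a j) * v (Sum.inr (Sum.inr ⟨a, j⟩)) := by
    intro a v
    rw [Fintype.sum_sum_type, Fintype.sum_sum_type, hψ]
    simp only [Sum.elim_inl, Sum.elim_inr]
    rw [← add_assoc]
    congr 1
    rw [Fintype.sum_sigma, Finset.sum_eq_single a]
    · simp only [if_true]
    · intro b _ hb
      exact Finset.sum_eq_zero fun j _ => by rw [if_neg hb, zero_mul]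
    · intro h; exact absurd (Finset.mem_univ _) h
  have hEv : ∀ a b, ∀ I ∈ St β c (dg b), ∑ γ, ψ a γ * Ev D (zt T σ er) y b I γ =
      if a = b then - mn x I else 0 := by
    intro a b I hI
    rw [hsum]
    have h1 := hφ3 a b I hI
    have h2 : ∀ j : Q a, Ev D (zt T σ er) y b I (Sum.inr (Sum.inr ⟨a, j⟩)) =
        D b I (cq a j) + if b = a then - er a I j else 0 := fun j => by
      change D b I (y (Sum.inr (Sum.inr ⟨a, j⟩))) + _ = _
      rw [hyq]
      rfl
    have h3 : ∀ l, Ev D (zt T σ er) y b I (Sum.inl l) = D b I (x l) := fun l => by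
      change D b I (y (Sum.inl l)) + 0 = _
      rw [add_zero, hxl]
    have h4 : ∀ t, Ev D (zt T σ er) y b I (Sum.inr (Sum.inl t)) =
        D b I (y (Sum.inr (Sum.inl t))) := fun t => by
      change _ + (0 : L) = _
      rw [add_zero]
    simp only [h2, h3, h4, mul_add, Finset.sum_add_distrib]
    rw [h1]
    by_cases hab : a = b
    · subst hab
      simp only [if_true]
      rw [← he a I hI]
      have h5 : ∑ j, D a I (cq a j) * aeval x (R a j) = ∑ j, aeval x (R a j) * D a I (cq a j) :=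
        Finset.sum_congr rfl fun j _ => mul_comm _ _
      have h6 : ∑ j, aeval x (R a j) * - er a I j = - ∑ j, er a I j * aeval x (R a j) := by
        rw [← Finset.sum_neg_distrib]
        exact Finset.sum_congr rfl fun j _ => by ring
      rw [h5, h6]
      ring
    · rw [if_neg hab]
      simp only [if_neg (Ne.symm hab), zero_mul, mul_zero, Finset.sum_const_zero, zero_add,
        add_zero]
      rw [← Finset.sum_neg_distrib, ← Finset.sum_add_distrib]
      exact Finset.sum_eq_zero fun j _ => by ring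
  refine ⟨ψ, fun a s => ?_, fun a b I hI hab => ?_, fun a I hI => ?_⟩
  · rw [hsum]
    have h1 := hφ1 a s
    rw [Fintype.sum_sum_type] at h1
    have h2 : ∀ l, gx β (wt Q w) y s (Sum.inl l) = gx β w y0 s (Sum.inl l) := fun l => by
      rw [gx_inl, gx_inl, hxl, hy0l]
    have h3 : ∀ t, gx β (wt Q w) y s (Sum.inr (Sum.inl t)) = gx β w y0 s (Sum.inr t) := fun t => by
      simp only [gx, gw, Sum.elim_inr, wt, Sum.elim_inl, hy0r]
    have h4 : ∀ p, gx β (wt Q w) y s (Sum.inr (Sum.inr p)) = 0 := fun p => by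
      simp only [gx, gw, Sum.elim_inr, wt, Nat.cast_zero, zero_mul]
    simp only [h2, h3, h4, mul_zero, Finset.sum_const_zero, add_zero]
    exact h1
  · rw [hEv a b I hI, if_neg hab]
  · rw [hEv a a I hI, if_pos rfl, hxd]

end

end Pool.Agent.K6.H80.FC
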